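import Pool.Agent.Q163.ER.Pat

/-!
Project ER (helper163), part 2: bilinear sums with one good function and arbitrary further functions
(after Y842.PG.BilR of helper842).
-/

set_option autoImplicit false

open Finset Filter Topology

namespace Pool.Agent.Q163.ER

open Pool.Agent.Y842.PH
open Pool.Agent.Y842.PG (shz cc cc_nonneg cc_lim prod_norm_le pr)
open Pool.Agent.Helper602.MK (ee)
open Pool.Agent.Helper602.MK.N_J1c (c_ee_add c_ee_int c_norm_ee)
open Pool.Agent.TH112.BL (QD)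

/-- the iterated differences of `Q` have small exponential sums -/
def SpF (N i : ℕ) : (r : ℕ) → (Fin r → ℤ) → ℤ → (ℤ → ℂ) → Prop
  | 0, _, l, Q => ∀ p ∈ Ioc (2 ^ i) (2 ^ (i + 1)), ∀ θ : ℝ,
      ‖∑ m ∈ range N, Q ((m : ℤ) + (p : ℕ) * l) * ee (θ * m)‖ * 2 ^ i ≤ N
  | r + 1, k, l, Q => ∀ g ∈ Icc 1 (2 ^ i), SpF N i r (fun t => k t.succ - k 0) (l - k 0)
      (fun z => Q z * (starRingEnd ℂ) (Q (z + (g : ℕ) * (l - k 0))))

theorem bilf (N i : ℕ) : ∀ (r κ : ℕ) (P : Finset ℕ), P ⊆ Ioc (2 ^ i) (2 ^ (i + 1)) → ∀ θ : ℕ → ℝ,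
    ∀ (k : Fin r → ℤ) (l : ℤ) (Q : ℤ → ℂ), SpF N i r k l Q → (∀ z, ‖Q z‖ ≤ 1) →
    ∀ F : Fin r → ℤ → ℂ, (∀ t z, ‖F t z‖ ≤ 1) → (∀ t, |k t| ≤ κ) →
    2 ^ i * (4 * 2 ^ i * (2 ^ r * κ)) ≤ N →
    ∑ p ∈ P, ‖∑ m ∈ range N, (Q (m + p * l) * ∏ t, F t (m + p * k t)) * ee (θ p * m)‖ ≤ cc i r * N := by
  intro r
  induction r with
  | zero =>
    intro κ P hP θ k l Q hQ hQ1 F hF hk hN
    have hcard : P.card ≤ 2 ^ i := by
      refine (card_le_card hP).trans ?_
      rw [Nat.card_Ioc, pow_succ]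
      omega
    have h1 : ∀ p ∈ P, ‖∑ m ∈ range N, (Q (m + p * l) * ∏ t, F t (m + p * k t)) * ee (θ p * m)‖ ≤ N / 2 ^ i := by
      intro p hp
      rw [le_div_iff₀ (by positivity)]
      have := hQ p (hP hp) (θ p)
      simp only [univ_eq_empty, prod_empty, mul_one]
      exact this
    refine (sum_le_sum h1).trans ?_
    rw [sum_const, nsmul_eq_mul]
    unfold cc
    have h2 : (P.card : ℝ) ≤ 2 ^ i := by exact_mod_cast hcard
    calc (P.card : ℝ) * (N / 2 ^ i) ≤ 2 ^ i * (N / 2 ^ i) := mul_le_mul_of_nonneg_right h2 (by positivity)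
      _ = 1 * N := by field_simp
  | succ r ih =>
    intro κ P hP θ k l Q hQ hQ1 F hF hk hN
    have hcard : P.card ≤ 2 ^ i := by
      refine (card_le_card hP).trans ?_
      rw [Nat.card_Ioc, pow_succ]
      omega
    have hcardr : (P.card : ℝ) ≤ 2 ^ i := by exact_mod_cast hcard
    set k' : Fin r → ℤ := fun t => k t.succ - k 0 with hk'
    set l' : ℤ := l - k 0 with hl'
    have hk'2 : ∀ t, |k' t| ≤ ((2 * κ : ℕ) : ℤ) := by
      intro t
      have h1 := hk t.succ
      have h2 := hk 0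
      rw [hk']
      show |k t.succ - k 0| ≤ _
      have := abs_sub (k t.succ) (k 0)
      push_cast
      linarith
    set b : ℕ → ℕ → ℂ := fun p m => (Q (m + p * l') * ∏ t : Fin r, F t.succ (m + p * k' t)) * ee (θ p * m) with hb
    have hb1 : ∀ p m, ‖b p m‖ ≤ 1 := by
      intro p m
      rw [hb]
      show ‖(Q (m + p * l') * ∏ t : Fin r, F t.succ (m + p * k' t)) * ee (θ p * m)‖ ≤ 1
      rw [norm_mul, c_norm_ee, mul_one, norm_mul]
      exact mul_le_one₀ (hQ1 _) (norm_nonneg _) (prod_norm_le _ _ (fun t => hF _ _))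
    -- shifting
    have h1 : ∀ p ∈ P, ‖∑ m ∈ range N, (Q (m + p * l) * ∏ t, F t (m + p * k t)) * ee (θ p * m)‖ ≤
        ‖∑ m ∈ range N, F 0 m * b p m‖ + 4 * 2 ^ i * κ := by
      intro p hp
      set u : ℤ → ℂ := fun z => F 0 z * ((Q (z + p * l') * ∏ t : Fin r, F t.succ (z + p * k' t)) *
        ee (θ p * ((z - p * k 0 : ℤ) : ℝ))) with hu
      have hu1 : ∀ z, ‖u z‖ ≤ 1 := by
        intro z
        rw [hu]
        show ‖F 0 z * ((Q (z + p * l') * ∏ t : Fin r, F t.succ (z + p * k' t)) *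
          ee (θ p * ((z - p * k 0 : ℤ) : ℝ)))‖ ≤ 1
        rw [norm_mul, norm_mul, c_norm_ee, mul_one, norm_mul]
        exact mul_le_one₀ (hF _ _) (by positivity)
          (mul_le_one₀ (hQ1 _) (norm_nonneg _) (prod_norm_le _ _ (fun t => hF _ _)))
      have h2 := shz N (p * k 0) u 1 hu1
      have h3 : ∑ m ∈ range N, (Q (m + p * l) * ∏ t, F t (m + p * k t)) * ee (θ p * m) =
          ∑ m ∈ range N, u (m + p * k 0) := by
        refine sum_congr rfl fun m _ => ?_
        rw [hu, Fin.prod_univ_succ]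
        show _ = F 0 (m + p * k 0) * ((Q (m + p * k 0 + p * l') * ∏ t : Fin r, F t.succ (m + p * k 0 + p * k' t)) *
          ee (θ p * (((m : ℤ) + p * k 0 - p * k 0 : ℤ) : ℝ)))
        have e1 : (((m : ℤ) + p * k 0 - p * k 0 : ℤ) : ℝ) = m := by
          push_cast
          ring
        have e2 : (m : ℤ) + p * k 0 + p * l' = m + p * l := by rw [hl']; ring
        have e3 : ∏ t : Fin r, F t.succ (m + p * k 0 + p * k' t) = ∏ t : Fin r, F t.succ (m + p * k t.succ) := by
          refine prod_congr rfl fun t _ => ?_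
          congr 1
          rw [hk']
          show (m : ℤ) + p * k 0 + p * (k t.succ - k 0) = m + p * k t.succ
          ring
        rw [e1, e2, e3]
        ring
      have h4 : ‖∑ m ∈ range N, u m‖ = ‖∑ m ∈ range N, F 0 m * b p m‖ := by
        have e1 : ∑ m ∈ range N, u m = ee (-(θ p * ((p * k 0 : ℤ) : ℝ))) * ∑ m ∈ range N, F 0 m * b p m := by
          rw [mul_sum]
          refine sum_congr rfl fun m _ => ?_
          rw [hu, hb]
          show F 0 m * ((Q (m + p * l') * ∏ t : Fin r, F t.succ (m + p * k' t)) *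
              ee (θ p * (((m : ℤ) - p * k 0 : ℤ) : ℝ))) =
            ee (-(θ p * ((p * k 0 : ℤ) : ℝ))) *
              (F 0 m * ((Q (m + p * l') * ∏ t : Fin r, F t.succ (m + p * k' t)) * ee (θ p * m)))
          have e2 : ee (θ p * (((m : ℤ) - p * k 0 : ℤ) : ℝ)) = ee (-(θ p * ((p * k 0 : ℤ) : ℝ))) * ee (θ p * m) := by
            rw [← c_ee_add]
            congr 1
            push_cast
            ring
          rw [e2]
          ring
        rw [e1, norm_mul, c_norm_ee, one_mul]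
      rw [h3, ← h4]
      have h5 := norm_sub_norm_le (∑ m ∈ range N, u (m + p * k 0)) (∑ m ∈ range N, u m)
      have h6 : 2 * |((p * k 0 : ℤ) : ℝ)| * 1 ≤ 4 * 2 ^ i * κ := by
        have h7 := (mem_Ioc.1 (hP hp)).2
        have h8 : (p : ℝ) ≤ 2 * 2 ^ i := by
          have : (p : ℝ) ≤ 2 ^ (i + 1) := by exact_mod_cast h7
          rw [pow_succ] at this
          linarith
        have h9 : |((k 0 : ℤ) : ℝ)| ≤ κ := by
          rw [← Int.cast_abs]
          exact_mod_cast hk 0
        push_cast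
        rw [abs_mul, Nat.abs_cast, mul_one]
        calc 2 * ((p : ℝ) * |((k 0 : ℤ) : ℝ)|) ≤ 2 * ((2 * 2 ^ i) * κ) := by gcongr
          _ = 4 * 2 ^ i * κ := by ring
      linarith
    -- Cauchy-Schwarz
    set V : ℝ := ∑ p ∈ P, ‖∑ m ∈ range N, F 0 m * b p m‖ with hV
    have hV2 : V ^ 2 ≤ N * (2 ^ i * N + 2 * (2 ^ i * (cc i r * N))) := by
      have h2 := cs N P (fun _ => 1) (fun _ _ => zero_le_one) (fun m => F 0 m) (fun m => hF 0 m) b
      simp only [one_mul] at h2
      refine h2.trans ?_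
      apply mul_le_mul_of_nonneg_left _ (Nat.cast_nonneg N)
      set φ : ℕ → ℕ → ℝ := fun p p' => ‖∑ m ∈ range N, b p m * (starRingEnd ℂ) (b p' m)‖ with hφ
      have hsym : ∀ p p', φ p p' = φ p' p := by
        intro p p'
        rw [hφ]
        show ‖∑ m ∈ range N, b p m * (starRingEnd ℂ) (b p' m)‖ = ‖∑ m ∈ range N, b p' m * (starRingEnd ℂ) (b p m)‖
        rw [← RCLike.norm_conj, map_sum]
        congr 1
        refine sum_congr rfl fun m _ => ?_
        simp only [map_mul, Complex.conj_conj]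
        ring
      have hG : ∀ p ∈ P, ∀ p' ∈ P, p' ≤ p + 2 ^ i := by
        intro p hp p' hp'
        have h3 := mem_Ioc.1 (hP hp)
        have h4 := mem_Ioc.1 (hP hp')
        have h5 := pow_succ 2 i
        omega
      show ∑ p ∈ P, ∑ p' ∈ P, φ p p' ≤ _
      rw [pairs P (2 ^ i) hG φ hsym]
      have h3 : ∑ p ∈ P, φ p p ≤ 2 ^ i * N := by
        have e3 : ∀ p ∈ P, φ p p ≤ N := by
          intro p _
          refine (norm_sum_le _ _).trans ?_
          refine (sum_le_sum (g := fun _ => (1 : ℝ)) fun m _ => ?_).trans (by simp)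
          rw [norm_mul, RCLike.norm_conj]
          exact mul_le_one₀ (hb1 p m) (norm_nonneg _) (hb1 p m)
        have e4 := sum_le_sum e3
        rw [sum_const, nsmul_eq_mul] at e4
        refine e4.trans ?_
        exact mul_le_mul_of_nonneg_right hcardr (Nat.cast_nonneg N)
      have h4 : ∀ g ∈ Icc 1 (2 ^ i), ∑ p ∈ P.filter (fun p => p + g ∈ P), φ p (p + g) ≤ cc i r * N := by
        intro g hg
        have h5 := ih (2 * κ) (P.filter (fun p => p + g ∈ P)) ((filter_subset _ _).trans hP)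
          (fun p => θ p - θ (p + g)) k' l' (fun z => Q z * (starRingEnd ℂ) (Q (z + (g : ℕ) * l'))) (hQ g hg)
          (fun z => by
            rw [norm_mul, RCLike.norm_conj]
            exact mul_le_one₀ (hQ1 _) (norm_nonneg _) (hQ1 _))
          (fun t z => F t.succ z * (starRingEnd ℂ) (F t.succ (z + g * k' t))) (fun t z => by
            rw [norm_mul, RCLike.norm_conj]
            exact mul_le_one₀ (hF _ _) (norm_nonneg _) (hF _ _)) hk'2 (by
            refine le_trans (le_of_eq ?_) hN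
            rw [pow_succ 2 r]
            ring)
        refine le_trans (le_of_eq ?_) h5
        refine sum_congr rfl fun p _ => ?_
        rw [hφ, hb]
        show ‖∑ m ∈ range N, (Q (m + p * l') * ∏ t : Fin r, F t.succ (m + p * k' t)) * ee (θ p * m) *
          (starRingEnd ℂ) ((Q (m + ((p + g : ℕ) : ℤ) * l') *
            ∏ t : Fin r, F t.succ (m + ((p + g : ℕ) : ℤ) * k' t)) * ee (θ (p + g) * m))‖ = _
        congr 1
        refine sum_congr rfl fun m _ => ?_
        rw [map_mul, map_mul, conj_ee, map_prod, prod_mul_distrib]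
        have e1 : ee ((θ p - θ (p + g)) * m) = ee (θ p * m) * ee (-(θ (p + g) * m)) := by
          rw [← c_ee_add]
          congr 1
          ring
        have e2 : ∏ t : Fin r, (starRingEnd ℂ) (F t.succ (m + ((p + g : ℕ) : ℤ) * k' t)) =
            ∏ t : Fin r, (starRingEnd ℂ) (F t.succ (m + p * k' t + g * k' t)) := by
          refine prod_congr rfl fun t _ => ?_
          congr 2
          push_cast
          ring
        have e3 : (m : ℤ) + ((p + g : ℕ) : ℤ) * l' = m + p * l' + g * l' := by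
          push_cast
          ring
        rw [e1, e2, e3]
        ring
      have h5 := sum_le_sum h4
      rw [sum_const, Nat.card_Icc, nsmul_eq_mul] at h5
      have h6 : ((2 ^ i + 1 - 1 : ℕ) : ℝ) = 2 ^ i := by
        rw [Nat.add_sub_cancel]
        push_cast
        rfl
      rw [h6] at h5
      linarith
    have hc0 := cc_nonneg i r
    have hV3 : V ≤ Real.sqrt (2 ^ i * (1 + 2 * cc i r)) * N := by
      apply abs_le_of_sq_le_sq' _ (by positivity) |>.2
      rw [mul_pow, Real.sq_sqrt (by positivity)]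
      refine hV2.trans (le_of_eq ?_)
      ring
    have h2 := sum_le_sum h1
    rw [sum_add_distrib, sum_const, nsmul_eq_mul] at h2
    have h3 : (P.card : ℝ) * (4 * 2 ^ i * κ) ≤ N := by
      have h4 : (2 ^ i : ℕ) * (4 * 2 ^ i * κ) ≤ N := by
        refine le_trans ?_ hN
        apply Nat.mul_le_mul_left
        apply Nat.mul_le_mul_left
        exact Nat.le_mul_of_pos_left _ (by positivity)
      calc (P.card : ℝ) * (4 * 2 ^ i * κ) ≤ 2 ^ i * (4 * 2 ^ i * κ) :=
            mul_le_mul_of_nonneg_right hcardr (by positivity)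
        _ ≤ N := by exact_mod_cast h4
    unfold cc
    linarith

/-- patterns of a good function -/
theorem spf_large (f : ℕ → ℂ) (hb : ∀ n, ‖f n‖ ≤ 1) (hf : EQ f) (i : ℕ) : ∀ (r : ℕ) (k : Fin r → ℤ) (l : ℤ)
    (L : List (ℤ × Bool)), Odp L → (∀ t, k t ≠ l) → ∃ N₀ : ℕ, ∀ N : ℕ, N₀ ≤ N → SpF N i r k l (pat f L) := by
  intro r
  induction r with
  | zero =>
    intro k l L hL hkl
    have hex : ∀ p : ℕ, ∃ N₀ : ℕ, ∀ N : ℕ, N₀ ≤ N → ∀ θ : ℝ, ‖∑ m ∈ range N, pat f (sh (p * l) L) m * ee (θ * m)‖ ≤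
        1 / 2 ^ i * N := fun p => phase f hb hf (sh (p * l) L) (odp_sh L hL _) (1 / 2 ^ i) (by positivity)
    choose N₁ hN₁ using hex
    refine ⟨∑ p ∈ Ioc (2 ^ i) (2 ^ (i + 1)), N₁ p, fun N hN p hp θ => ?_⟩
    have h1 := hN₁ p N (le_trans (single_le_sum (f := fun p => N₁ p) (fun _ _ => Nat.zero_le _) hp) hN) θ
    have h2 : ∑ m ∈ range N, pat f (sh (p * l) L) m * ee (θ * m) =
        ∑ m ∈ range N, pat f L ((m : ℤ) + (p : ℕ) * l) * ee (θ * m) := by
      refine sum_congr rfl fun m _ => ?_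
      rw [pat_sh]
    rw [h2] at h1
    have h3 := mul_le_mul_of_nonneg_right h1 (show (0 : ℝ) ≤ 2 ^ i by positivity)
    refine h3.trans (le_of_eq ?_)
    field_simp
  | succ r ih =>
    intro k l L hL hkl
    have hl0 : l - k 0 ≠ 0 := sub_ne_zero.2 (hkl 0).symm
    have hex : ∀ g : ℕ, ∃ N₀ : ℕ, 1 ≤ g → ∀ N : ℕ, N₀ ≤ N → SpF N i r (fun t => k t.succ - k 0) (l - k 0)
        (pat f (st (g * (l - k 0)) L)) := by
      intro g
      by_cases hg : 1 ≤ g
      · obtain ⟨N₀, h⟩ := ih (fun t => k t.succ - k 0) (l - k 0) (st (g * (l - k 0)) L)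
          (odp_st L hL _ (mul_ne_zero (by omega) hl0)) (fun t h => hkl t.succ (by linarith))
        exact ⟨N₀, fun _ => h⟩
      · exact ⟨0, fun h => (hg h).elim⟩
    choose N₁ hN₁ using hex
    refine ⟨∑ g ∈ Icc 1 (2 ^ i), N₁ g, fun N hN g hg => ?_⟩
    have h1 := hN₁ g (mem_Icc.1 hg).1 N
      (le_trans (single_le_sum (f := fun g => N₁ g) (fun _ _ => Nat.zero_le _) hg) hN)
    have h2 : (fun z => pat f L z * (starRingEnd ℂ) (pat f L (z + (g : ℕ) * (l - k 0)))) =
        pat f (st (g * (l - k 0)) L) := by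
      funext z
      rw [pat_st]
    rw [h2]
    exact h1

end Pool.Agent.Q163.ER
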