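import Pool.Agent.Q163.ER.BilF
import Pool.Agent.Y842.PG.Unif

/-!
Project ER (helper163), part 3: one good function and arbitrary multiplicative functions at almost all scales.
-/

set_option autoImplicit false

open Finset Filter Topology

namespace Pool.Agent.Q163.ER

open Pool.Agent.Y842.PH
open Pool.Agent.Y842.PG
open Pool.Agent.Helper602.MK (ee)
open Pool.Agent.Helper602.MK.N_J1c (c_ee_add c_ee_int c_norm_ee)
open Pool.Agent.TH112.BL (QD)
open Pool.Agent.Y304.U (sE ind ind_nonneg ind_le sE_nonneg)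

/-- the bilinear estimate with weights -/
theorem bilpf {r : ℕ} (f : ℕ → ℂ) (hf : ∀ n, ‖f n‖ ≤ 1) (G : Fin r → ℕ → ℂ) (hG : ∀ t n, ‖G t n‖ ≤ 1) (h : ℕ)
    (l : ℕ) (hs : Fin r → ℕ) (hhs : ∀ t, hs t ≤ h) (i N : ℕ) (P : Finset ℕ) (hP : P ⊆ QD i (i + 1)) (θ : ℕ → ℝ)
    (hQ : SpF N i r (fun t => (hs t : ℤ)) l (pat f [(0, false)]))
    (hN : 2 ^ i * (4 * 2 ^ i * (2 ^ r * h)) ≤ N) (e : ℝ) (he : ((i : ℝ) + 1) * cc i r ≤ e * 2 ^ i) :
    ∑ p ∈ P, Real.log p / 2 ^ i * ‖∑ m ∈ range N, pr (Fin.cons f G : Fin (r + 1) → ℕ → ℂ)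
      (Fin.cons l hs : Fin (r + 1) → ℕ) p m * ee (θ p * m)‖ ≤ e * N := by
  have h1 := bilf N i r h P (by
    intro p hp
    have := QD_mem (hP hp)
    rw [mem_Ioc]
    exact ⟨this.2.1, this.2.2⟩) θ (fun t => (hs t : ℤ)) l (pat f [(0, false)]) hQ (fun z => pat_norm f hf _ z)
    (fun t z => G t z.toNat) (fun t z => hG _ _) (by
      intro t
      rw [Nat.abs_cast]
      exact_mod_cast hhs t) hN
  have h2 : ∀ p : ℕ, ∑ m ∈ range N, (pat f [(0, false)] ((m : ℤ) + p * (l : ℤ)) *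
      ∏ t, G t ((m : ℤ) + p * (hs t : ℤ)).toNat) * ee (θ p * m) =
      ∑ m ∈ range N, pr (Fin.cons f G : Fin (r + 1) → ℕ → ℂ) (Fin.cons l hs : Fin (r + 1) → ℕ) p m *
        ee (θ p * m) := by
    intro p
    refine sum_congr rfl fun m _ => ?_
    unfold pr
    rw [Fin.prod_univ_succ]
    simp only [Fin.cons_zero, Fin.cons_succ]
    congr 2
    · unfold pat
      rw [List.map_cons, List.map_nil, List.prod_singleton]
      unfold cj
      simp only [Bool.false_eq_true, if_false, add_zero]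
      congr 1
  simp only [h2] at h1
  have h3 : ∀ p ∈ P, Real.log p / 2 ^ i * ‖∑ m ∈ range N, pr (Fin.cons f G : Fin (r + 1) → ℕ → ℂ)
      (Fin.cons l hs : Fin (r + 1) → ℕ) p m * ee (θ p * m)‖ ≤
      ((i : ℝ) + 1) / 2 ^ i * ‖∑ m ∈ range N, pr (Fin.cons f G : Fin (r + 1) → ℕ → ℂ)
      (Fin.cons l hs : Fin (r + 1) → ℕ) p m * ee (θ p * m)‖ := by
    intro p hp
    apply mul_le_mul_of_nonneg_right _ (norm_nonneg _)
    refine (w_le i p (hP hp)).trans ?_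
    apply div_le_div_of_nonneg_right _ (by positivity)
    have := Real.log_two_lt_d9
    have h4 : (0 : ℝ) ≤ i := Nat.cast_nonneg i
    nlinarith
  refine (sum_le_sum h3).trans ?_
  rw [← mul_sum]
  calc ((i : ℝ) + 1) / 2 ^ i * _ ≤
      ((i : ℝ) + 1) / 2 ^ i * (cc i r * N) := mul_le_mul_of_nonneg_left h1 (by positivity)
    _ = (((i : ℝ) + 1) * cc i r) / 2 ^ i * N := by ring
    _ ≤ e * N := by
      apply mul_le_mul_of_nonneg_right _ (Nat.cast_nonneg N)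
      rw [div_le_iff₀ (by positivity)]
      exact he

/-- no condition on the phase -/
def Gd0 (_ _ : ℕ) (_ : ℝ) : Prop := True

/-- **all phases**, one good function -/
theorem minorf {r : ℕ} (f : ℕ → ℂ) (hb : ∀ n, ‖f n‖ ≤ 1) (hf : EQ f) (hfF : ∀ p : ℕ, p.Prime → Flp f p)
    (l : ℕ) (hs : Fin r → ℕ) (hl : ∀ t, hs t ≠ l) (δ : ℝ) (hδ : 0 < δ)
    (hδ1 : δ ≤ 1) (η : ℝ) (hη : 0 < η) :
    ∃ R X₀ : ℕ, ∀ X : ℕ, X₀ ≤ X → ∀ G : Fin (r + 1) → ℕ → ℂ, (CF G ∧ G 0 = f) →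
      sE (Bad G (Fin.cons l hs : Fin (r + 1) → ℕ) Gd0 R δ) X ≤ η * Real.log X := by
  set hs' : Fin (r + 1) → ℕ := Fin.cons l hs with hhs'
  set h : ℕ := ∑ t, hs' t with hh
  have hhs : ∀ t, hs' t ≤ h := fun t => single_le_sum (f := fun t => hs' t) (fun _ _ => Nat.zero_le _) (mem_univ t)
  have hhs2 : ∀ t : Fin r, hs t ≤ h := fun t => hhs t.succ
  refine cells hs' (fun G => CF G ∧ G 0 = f) (fun G hG => hG.1.1) Gd0 (fun _ _ _ _ _ h => h)
    (fun _ _ _ _ _ h => h) ?_ δ hδ hδ1 η hη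
  intro ε hε
  obtain ⟨D, hD, Bc, hBc, b₀, hch⟩ := chain_g (Nat.succ_le_succ (Nat.zero_le r)) h hs' hhs ε hε
  obtain ⟨I₁, hI₁⟩ := cc_lim r 1 (ε / 10) (by positivity)
  refine ⟨D, hD, Bc, hBc, b₀ + I₁ + r + 1, fun b hb' n => ?_⟩
  obtain ⟨M₀, hM₀⟩ := hch b (by omega) n
  have hpat : Odp [((0 : ℤ), false)] := ⟨0, by simp⟩
  choose N₁ hN₁ using fun i : ℕ => spf_large f hb hf i r (fun t => (hs t : ℤ)) l [(0, false)] hpat
    (fun t h => hl t (by exact_mod_cast h))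
  refine ⟨0, M₀ + 2 * (∑ k ∈ range n, (N₁ (b + k * D) + 2 ^ (b + k * D) * (4 * 2 ^ (b + k * D) * (2 ^ r * h)))),
    fun M hM G hG α S hS _ => ?_⟩
  choose A q β hq1 hqY hAq hα hβ using fun k : ℕ => dir (α k) (2 ^ (8 * 2 ^ (b + k * D))) (by positivity)
  have h1 := hM₀ M (by omega) G hG.1.1 A q β S hS (fun k p hp t => hG.1.2 p (QD_mem (hS k hp)).1 t) hq1 hqY hAq
    hβ (by
      intro k hk N hNM hMN P hP hPq
      set i := b + k * D with hi
      have hle : N₁ i + 2 ^ i * (4 * 2 ^ i * (2 ^ r * h)) ≤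
          ∑ k ∈ range n, (N₁ (b + k * D) + 2 ^ (b + k * D) * (4 * 2 ^ (b + k * D) * (2 ^ r * h))) :=
        single_le_sum (f := fun k => N₁ (b + k * D) + 2 ^ (b + k * D) * (4 * 2 ^ (b + k * D) * (2 ^ r * h)))
          (fun _ _ => Nat.zero_le _) (mem_range.2 hk)
      have hcons : G = (Fin.cons f (fun t : Fin r => G t.succ) : Fin (r + 1) → ℕ → ℂ) := by
        funext t
        refine Fin.cases ?_ (fun t => ?_) t
        · rw [hG.2, Fin.cons_zero]
        · rw [Fin.cons_succ]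
      rw [hcons, hhs']
      refine bilpf f hb (fun t : Fin r => G t.succ) (fun t n => hG.1.1 _ _) h l hs hhs2 i N P (hP.trans (hS k)) _
        (hN₁ i N (by omega)) (by omega) (ε / 10) ?_
      have := hI₁ i (by omega)
      rw [pow_one] at this
      exact this)
  refine le_trans (le_of_eq ?_) h1
  refine sum_congr rfl fun k _ => ?_
  rw [← hα k]

/-- all partial sums -/
theorem phasesf {r : ℕ} (f : ℕ → ℂ) (hb : ∀ n, ‖f n‖ ≤ 1) (hf : EQ f) (hfF : ∀ p : ℕ, p.Prime → Flp f p)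
    (l : ℕ) (hs : Fin r → ℕ) (hl : ∀ t, hs t ≠ l) (δ : ℝ) (hδ : 0 < δ) (hδ1 : δ ≤ 1) (η : ℝ)
    (hη : 0 < η) : ∃ X₀ : ℕ, ∀ X : ℕ, X₀ ≤ X → ∀ G : Fin (r + 1) → ℕ → ℂ, (CF G ∧ G 0 = f) →
      sE {N : ℕ | ∃ α : ℝ, ∃ y ≤ N, δ * N < ‖Cg G (Fin.cons l hs : Fin (r + 1) → ℕ) y α‖} X ≤ η * Real.log X := by
  set δ₀ : ℝ := δ / 4 with hδ₀
  have hδ₀0 : 0 < δ₀ := by positivity
  have hδ₀1 : δ₀ ≤ 1 := by rw [hδ₀]; linarith
  obtain ⟨R, X₁, hX₁⟩ := minorf f hb hf hfF l hs hl δ₀ hδ₀0 hδ₀1 (η * δ / 16) (by positivity)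
  refine ⟨X₁ + 2, fun X hX G hCF => ?_⟩
  have hX2 : 2 ≤ X := by omega
  have hlX := log_two_mul X hX2
  have h3 := hX₁ (2 * X) (by omega) G hCF
  have h1 : sE {N : ℕ | ∃ α : ℝ, ∃ y ≤ N, δ * N < ‖Cg G (Fin.cons l hs : Fin (r + 1) → ℕ) y α‖} X ≤
      4 / (δ / 2) * sE (Bad G (Fin.cons l hs : Fin (r + 1) → ℕ) Gd0 R δ₀) (2 * X) := by
    refine (sE_mono ?_ X).trans (thick (Bad G (Fin.cons l hs : Fin (r + 1) → ℕ) Gd0 R δ₀) (δ / 2) (by positivity)
      (by linarith) X)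
    rintro N ⟨α, y, hyN, hbig⟩
    have hN0 : 0 < N := by
      rcases Nat.eq_zero_or_pos N with h0 | h0
      · exfalso
        have hy : y = 0 := by omega
        rw [h0, hy, Cg_zero] at hbig
        simp at hbig
      · exact h0
    obtain ⟨h2, h4⟩ := near G hCF.1.1 _ δ hδ hδ1 α N y hyN hN0 hbig
    exact ⟨y, h2, hyN, fun m hm1 hm2 => ⟨α, trivial, h4 m hm1 hm2⟩⟩
  calc _ ≤ 4 / (δ / 2) * sE (Bad G (Fin.cons l hs : Fin (r + 1) → ℕ) Gd0 R δ₀) (2 * X) := h1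
    _ ≤ 4 / (δ / 2) * (η * δ / 8 * Real.log X) := by
        apply mul_le_mul_of_nonneg_left _ (by positivity)
        refine h3.trans ?_
        calc η * δ / 16 * Real.log ((2 * X : ℕ) : ℝ) ≤ η * δ / 16 * (2 * Real.log X) :=
              mul_le_mul_of_nonneg_left hlX (by positivity)
          _ = η * δ / 8 * Real.log X := by ring
    _ = η * Real.log X := by field_simp; ring

/-- **Theorem**: one good function, arbitrary multiplicative functions, all phases and partial sums. -/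
theorem mainf {r : ℕ} (f : ℕ → ℂ) (hb : ∀ n, ‖f n‖ ≤ 1) (hf : EQ f) (hfF : ∀ p : ℕ, p.Prime → Flp f p)
    (l : ℕ) (hs : Fin r → ℕ) (hl : ∀ t, hs t ≠ l) (ε : ℝ) (hε : 0 < ε) :
    ∃ X₀ : ℕ, ∀ X : ℕ, X₀ ≤ X → ∀ g : Fin r → ℕ → ℂ, (∀ t n, ‖g t n‖ ≤ 1) →
      (∀ t, ∀ m n : ℕ, Nat.Coprime m n → g t (m * n) = g t m * g t n) → ∀ (α : ℕ → ℝ) (y : ℕ → ℕ),
      (∀ N, y N ≤ N) →
        ∑ N ∈ Icc 1 X, ‖∑ n ∈ Icc 1 (y N), f (n + l) * (∏ t, g t (n + hs t)) * ee (α N * n)‖ / (N : ℝ) ^ 2 ≤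
          ε * Real.log X := by
  classical
  set δ : ℝ := min 1 (ε / 4) with hδ
  have hδ0 : 0 < δ := lt_min one_pos (by positivity)
  have hδ1 : δ ≤ 1 := min_le_left _ _
  have hδε : δ ≤ ε / 4 := min_le_right _ _
  obtain ⟨X₁, hX₁⟩ := phasesf f hb hf hfF l hs hl δ hδ0 hδ1 (ε / 4) (by positivity)
  obtain ⟨X₂, hX₂⟩ := Filter.eventually_atTop.1 ((Filter.tendsto_atTop.1
    (Real.tendsto_log_atTop.comp tendsto_natCast_atTop_atTop)) (20 / ε + 1))
  refine ⟨X₁ + X₂ + 1, fun X hX g hg hm α y hy => ?_⟩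
  have hlog : 20 / ε + 1 ≤ Real.log X := hX₂ X (by omega)
  have hlog1 : (1 : ℝ) ≤ Real.log X := by
    have : 0 < 20 / ε := by positivity
    linarith
  have hlog2 : 4 ≤ ε / 4 * Real.log X := by
    have h1 : ε / 4 * (20 / ε + 1) ≤ ε / 4 * Real.log X := mul_le_mul_of_nonneg_left hlog (by positivity)
    have h2 : ε / 4 * (20 / ε + 1) = 5 + ε / 4 := by
      field_simp
      ring
    linarith
  have key := reduct hs X (X + ∑ t, hs t) (fun t => Nat.add_le_add_left (single_le_sum (f := fun t => hs t)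
    (fun _ _ => Nat.zero_le _) (mem_univ t)) X) (fun N => 1 / (N : ℝ) ^ 2)
    (fun N => by positivity) y hy (fun N n => f (n + l) * ee (α N * n)) (ε * Real.log X) (by
      intro G hG hGF
      have h1 := hX₁ X (by omega) (Fin.cons f G : Fin (r + 1) → ℕ → ℂ) ⟨⟨by
        intro t n
        refine Fin.cases ?_ (fun t => ?_) t
        · exact hb n
        · exact hG t n, by
        intro p hp t
        refine Fin.cases ?_ (fun t => ?_) t
        · exact hfF p hp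
        · exact hGF p hp t⟩, rfl⟩
      set T : Set ℕ := {N : ℕ | ∃ α : ℝ, ∃ y ≤ N, δ * N < ‖Cg (Fin.cons f G : Fin (r + 1) → ℕ → ℂ)
        (Fin.cons l hs : Fin (r + 1) → ℕ) y α‖} with hT
      have hG1 : ∀ t n, ‖(Fin.cons f G : Fin (r + 1) → ℕ → ℂ) t n‖ ≤ 1 := by
        intro t n
        refine Fin.cases ?_ (fun t => ?_) t
        · exact hb n
        · exact hG t n
      have h2 := l1_of_sE (Icc 1 X) X (Subset.refl _) (fun N =>
        ‖∑ n ∈ Icc 1 (y N), f (n + l) * ee (α N * n) * ∏ t, G t (n + hs t)‖) T δ hδ0.le (by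
          intro N _
          refine (norm_sum_le _ _).trans ?_
          calc ∑ n ∈ Icc 1 (y N), ‖f (n + l) * ee (α N * n) * ∏ t, G t (n + hs t)‖ ≤
              ∑ n ∈ Icc 1 (y N), (1 : ℝ) := by
                refine sum_le_sum fun n _ => ?_
                rw [norm_mul, norm_mul, c_norm_ee, mul_one]
                exact mul_le_one₀ (hb _) (norm_nonneg _) (prod_norm_le _ _ (fun t => hG t _))
            _ = (y N : ℝ) := by simp
            _ ≤ N := by exact_mod_cast hy N) (by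
          intro N _ hNT
          have h3 : ‖Cg (Fin.cons f G : Fin (r + 1) → ℕ → ℂ) (Fin.cons l hs : Fin (r + 1) → ℕ) (y N) (α N)‖ ≤
              δ * N := by
            by_contra h
            push Not at h
            exact hNT ⟨α N, y N, hy N, h⟩
          have h4 := sum_shift_le (fun n => pr (Fin.cons f G : Fin (r + 1) → ℕ → ℂ)
              (Fin.cons l hs : Fin (r + 1) → ℕ) 1 n * ee (α N * n)) (fun n => by
            show ‖pr (Fin.cons f G : Fin (r + 1) → ℕ → ℂ) (Fin.cons l hs : Fin (r + 1) → ℕ) 1 n *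
              ee (α N * n)‖ ≤ 1
            rw [norm_mul, c_norm_ee, mul_one]
            exact pr_le _ hG1 _ _ _) (y N)
          have h5 : ∑ n ∈ Icc 1 (y N), pr (Fin.cons f G : Fin (r + 1) → ℕ → ℂ)
              (Fin.cons l hs : Fin (r + 1) → ℕ) 1 n * ee (α N * n) =
              ∑ n ∈ Icc 1 (y N), f (n + l) * ee (α N * n) * ∏ t, G t (n + hs t) := by
            refine sum_congr rfl fun n _ => ?_
            unfold pr
            rw [Fin.prod_univ_succ]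
            simp only [Fin.cons_zero, Fin.cons_succ, one_mul]
            ring
          have h6 : ‖∑ n ∈ Icc 1 (y N), pr (Fin.cons f G : Fin (r + 1) → ℕ → ℂ)
              (Fin.cons l hs : Fin (r + 1) → ℕ) 1 n * ee (α N * n)‖ ≤
            ‖Cg (Fin.cons f G : Fin (r + 1) → ℕ → ℂ) (Fin.cons l hs : Fin (r + 1) → ℕ) (y N) (α N)‖ + 2 := h4
          rw [h5] at h6
          linarith)
      have h3 : ∑ N ∈ Icc 1 X, 1 / (N : ℝ) ^ 2 * ‖∑ n ∈ Icc 1 (y N), f (n + l) * ee (α N * n) *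
          ∏ t, G t (n + hs t)‖ = ∑ N ∈ Icc 1 X, ‖∑ n ∈ Icc 1 (y N), f (n + l) * ee (α N * n) *
          ∏ t, G t (n + hs t)‖ / (N : ℝ) ^ 2 := by
        refine sum_congr rfl fun N _ => ?_
        rw [one_div, mul_comm, div_eq_mul_inv]
      refine (le_of_eq h3).trans (h2.trans ?_)
      have h4 : δ * (1 + Real.log X) ≤ ε / 4 * (2 * Real.log X) := by
        apply mul_le_mul hδε (by linarith) (by linarith) (by positivity)
      linarith) (by positivity) g hg hm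
  refine le_trans (le_of_eq ?_) key
  refine sum_congr rfl fun N _ => ?_
  rw [one_div, mul_comm (((N : ℝ) ^ 2)⁻¹), ← div_eq_mul_inv]
  congr 2
  refine sum_congr rfl fun n _ => ?_
  ring

end Pool.Agent.Q163.ER
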