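import Pool.Agent.Q163.ER.Rnd

/-!
Project ER (helper163), part 5: the final form.
-/

set_option autoImplicit false

open Finset Filter Topology MeasureTheory ProbabilityTheory

namespace Pool.Agent.Q163.ER

open Pool.Agent.Q163.RP Pool.Agent.Q163.RX
open Pool.Agent.Y842.PG (Flp)
open Pool.Agent.Helper602.MK (ee)

/-- multiplicative functions with values in the unit disc -/
def Mu (f : ℕ → ℂ) : Prop := (∀ n, 1 ≤ n → ‖f n‖ ≤ 1) ∧
  ∀ m n : ℕ, 1 ≤ m → 1 ≤ n → Nat.Coprime m n → f (m * n) = f m * f n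

/-- values at `0` changed to `0` -/
noncomputable def z0 (g : ℕ → ℂ) (n : ℕ) : ℂ := if n = 0 then 0 else g n

lemma z0_le {g : ℕ → ℂ} (hg : Mu g) (n : ℕ) : ‖z0 g n‖ ≤ 1 := by
  unfold z0
  split_ifs with h
  · simp
  · exact hg.1 n (by omega)

lemma z0_mul {g : ℕ → ℂ} (hg : Mu g) (m n : ℕ) (h : Nat.Coprime m n) : z0 g (m * n) = z0 g m * z0 g n := by
  unfold z0
  by_cases h1 : m = 0
  · simp [h1]
  by_cases h2 : n = 0
  · simp [h2]
  rw [if_neg h1, if_neg h2, if_neg (Nat.mul_ne_zero h1 h2)]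
  exact hg.2 m n (by omega) (by omega) h

lemma z0_pos (g : ℕ → ℂ) (n : ℕ) (hn : 1 ≤ n) : z0 g n = g n := by
  unfold z0
  rw [if_neg (by omega)]

/-- Abel summation -/
lemma abel (F : ℕ → ℂ) (X : ℕ) : ∑ n ∈ Icc 1 X, F n / (n : ℂ) =
    ∑ N ∈ Icc 1 X, (∑ n ∈ Icc 1 N, F n) * (1 / (N : ℂ) - 1 / ((N : ℂ) + 1)) +
      (∑ n ∈ Icc 1 X, F n) / ((X : ℂ) + 1) := by
  induction X with
  | zero => simp
  | succ X ih =>
    rw [sum_Icc_succ_top (by omega), ih, sum_Icc_succ_top (by omega : 1 ≤ X + 1),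
      sum_Icc_succ_top (f := F) (by omega : 1 ≤ X + 1)]
    have h1 : (X : ℂ) + 1 ≠ 0 := by exact_mod_cast (by omega : X + 1 ≠ 0)
    have h2 : (X : ℂ) + 1 + 1 ≠ 0 := by exact_mod_cast (by omega : X + 1 + 1 ≠ 0)
    push_cast
    field_simp
    ring

lemma abel_le (F : ℕ → ℂ) (X : ℕ) (hF : ∀ n, 1 ≤ n → ‖F n‖ ≤ 1) : ‖∑ n ∈ Icc 1 X, F n / (n : ℂ)‖ ≤
    ∑ N ∈ Icc 1 X, ‖∑ n ∈ Icc 1 N, F n‖ / (N : ℝ) ^ 2 + 1 := by
  rw [abel]
  refine (norm_add_le _ _).trans ?_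
  apply add_le_add
  · refine (norm_sum_le _ _).trans ?_
    refine sum_le_sum fun N hN => ?_
    have hN1 := (mem_Icc.1 hN).1
    have hN0 : (0 : ℝ) < N := by exact_mod_cast hN1
    rw [norm_mul, div_eq_mul_inv (‖∑ n ∈ Icc 1 N, F n‖) ((N : ℝ) ^ 2)]
    apply mul_le_mul_of_nonneg_left _ (norm_nonneg _)
    have h1 : (1 / (N : ℂ) - 1 / ((N : ℂ) + 1)) = (((1 / ((N : ℝ) * (N + 1)) : ℝ)) : ℂ) := by
      have h2 : (N : ℂ) ≠ 0 := by exact_mod_cast (by omega : N ≠ 0)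
      have h3 : (N : ℂ) + 1 ≠ 0 := by exact_mod_cast (by omega : N + 1 ≠ 0)
      push_cast
      field_simp
      ring
    rw [h1, Complex.norm_real, Real.norm_eq_abs, abs_of_nonneg (by positivity), one_div]
    apply inv_anti₀ (by positivity)
    nlinarith
  · rw [norm_div]
    have h1 : ‖((X : ℂ) + 1)‖ = (X : ℝ) + 1 := by
      have h2 : ((X : ℂ) + 1) = (((X : ℝ) + 1 : ℝ) : ℂ) := by push_cast; rfl
      rw [h2, Complex.norm_real, Real.norm_eq_abs, abs_of_nonneg (by positivity)]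
    rw [h1, div_le_one (by positivity)]
    refine (norm_sum_le _ _).trans ?_
    calc ∑ n ∈ Icc 1 X, ‖F n‖ ≤ ∑ n ∈ Icc 1 X, (1 : ℝ) := sum_le_sum fun n hn => hF n (mem_Icc.1 hn).1
      _ = (X : ℝ) := by simp
      _ ≤ (X : ℝ) + 1 := by linarith

/-- **the theorem** -/
theorem fin (P : Set ℕ) (hP : Tendsto (Pool.Agent.Q163.RX.mass P ll) atTop atTop) (g : ℕ → ℂ) (hg : Mu g)
    (hgp : ∀ p : ℕ, p.Prime → ‖g p‖ = 1) :
    ∀ᵐ ω ∂cm, ∀ (k l : ℕ) (h : Fin k → ℕ), (∀ j, h j ≠ l) → ∀ ε : ℝ, 0 < ε → ∃ X₀ : ℕ, ∀ X : ℕ, X₀ ≤ X →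
      ∀ f : Fin k → ℕ → ℂ, (∀ j, Mu (f j)) →
        (∀ (α : ℕ → ℝ) (y : ℕ → ℕ), (∀ N, y N ≤ N) →
          ∑ N ∈ Icc 1 X, ‖∑ n ∈ Icc 1 (y N), g (n + l) * (rnd P ω (n + l) : ℂ) * (∏ j, f j (n + h j)) *
            ee (α N * n)‖ / (N : ℝ) ^ 2 ≤ ε * Real.log X) ∧
        ∀ α : ℝ, ‖∑ n ∈ Icc 1 X, g (n + l) * (rnd P ω (n + l) : ℂ) * (∏ j, f j (n + h j)) *
            ee (α * n) / (n : ℂ)‖ ≤ ε * Real.log X := by
  filter_upwards [good P hP (z0 g) (z0_le hg)] with ω hω k l h hl ε hε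
  set F : ℕ → ℂ := fun n => z0 g n * (rnd P ω n : ℂ) with hF
  have hb : ∀ n, ‖F n‖ ≤ 1 := by
    intro n
    rw [hF]
    show ‖z0 g n * (rnd P ω n : ℂ)‖ ≤ 1
    rw [norm_mul, Complex.norm_real, Real.norm_eq_abs, rnd_abs, mul_one]
    exact z0_le hg n
  have hflp : ∀ p : ℕ, p.Prime → Flp F p := by
    intro p hp
    refine ⟨g p * (rnd P ω p : ℂ), ?_, fun n hn => ?_⟩
    · rw [norm_mul, Complex.norm_real, Real.norm_eq_abs, rnd_abs, hgp p hp, mul_one]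
    · have hn0 : n ≠ 0 := by
        rintro rfl
        exact hn (dvd_zero p)
      have hc : Nat.Coprime p n := (Nat.Prime.coprime_iff_not_dvd hp).2 hn
      have h1 : rnd P ω (p * n) = rnd P ω p * rnd P ω n := by
        unfold rnd
        exact mult_mul _ hp.ne_zero hn0
      rw [hF]
      show z0 g (p * n) * (rnd P ω (p * n) : ℂ) = g p * (rnd P ω p : ℂ) * (z0 g n * (rnd P ω n : ℂ))
      rw [z0_mul hg p n hc, h1, z0_pos g p hp.one_lt.le]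
      push_cast
      ring
  obtain ⟨X₁, hX₁⟩ := mainf F hb hω hflp l h hl (ε / 2) (by positivity)
  obtain ⟨X₂, hX₂⟩ := Filter.eventually_atTop.1 ((Filter.tendsto_atTop.1
    (Real.tendsto_log_atTop.comp tendsto_natCast_atTop_atTop)) (2 / ε))
  refine ⟨X₁ + X₂, fun X hX f hf => ?_⟩
  have hlog : 2 / ε ≤ Real.log X := hX₂ X (by omega)
  have hlog0 : 0 ≤ Real.log X := Real.log_natCast_nonneg X
  have heq : ∀ (y : ℕ) (a : ℝ), ∑ n ∈ Icc 1 y, F (n + l) * (∏ t, z0 (f t) (n + h t)) * ee (a * n) =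
      ∑ n ∈ Icc 1 y, g (n + l) * (rnd P ω (n + l) : ℂ) * (∏ j, f j (n + h j)) * ee (a * n) := by
    intro y a
    refine sum_congr rfl fun n hn => ?_
    have hn1 := (mem_Icc.1 hn).1
    have e1 : ∏ t, z0 (f t) (n + h t) = ∏ j, f j (n + h j) :=
      prod_congr rfl fun t _ => z0_pos (f t) _ (by omega)
    rw [e1, hF]
    show z0 g (n + l) * (rnd P ω (n + l) : ℂ) * _ * _ = _
    rw [z0_pos g _ (by omega)]
  have key : ∀ (α : ℕ → ℝ) (y : ℕ → ℕ), (∀ N, y N ≤ N) →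
          ∑ N ∈ Icc 1 X, ‖∑ n ∈ Icc 1 (y N), g (n + l) * (rnd P ω (n + l) : ℂ) * (∏ j, f j (n + h j)) *
            ee (α N * n)‖ / (N : ℝ) ^ 2 ≤ ε / 2 * Real.log X := by
    intro α y hy
    have h1 := hX₁ X (by omega) (fun t => z0 (f t)) (fun t n => z0_le (hf t) n)
      (fun t m n hmn => z0_mul (hf t) m n hmn) α y hy
    refine le_trans (le_of_eq ?_) h1
    refine sum_congr rfl fun N _ => ?_
    rw [heq]
  refine ⟨fun α y hy => (key α y hy).trans ?_, fun α => ?_⟩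
  · nlinarith
  · have h1 := key (fun _ => α) (fun N => N) (fun _ => le_rfl)
    have h2 := abel_le (fun n => g (n + l) * (rnd P ω (n + l) : ℂ) * (∏ j, f j (n + h j)) * ee (α * n)) X (by
      intro n hn
      rw [norm_mul, norm_mul, norm_mul, Complex.norm_real, Real.norm_eq_abs, rnd_abs, mul_one,
        Pool.Agent.Helper602.MK.N_J1c.c_norm_ee, mul_one, norm_prod]
      exact mul_le_one₀ (hg.1 _ (by omega)) (by positivity)
        (prod_le_one (fun _ _ => norm_nonneg _) (fun j _ => (hf j).1 _ (by omega))))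
    have h3 : 1 ≤ ε / 2 * Real.log X := by
      calc (1 : ℝ) = ε / 2 * (2 / ε) := by field_simp
        _ ≤ ε / 2 * Real.log X := mul_le_mul_of_nonneg_left hlog (by positivity)
    linarith

end Pool.Agent.Q163.ER
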