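import Pool.Agent.Q163.ER.Kone
import Pool.Agent.Q163.ER.Fin

/-!
Project ER (helper163), part 9: one arbitrary function of Katai's class, all scales, natural averages.
-/

set_option autoImplicit false

open Finset Filter Topology MeasureTheory ProbabilityTheory

namespace Pool.Agent.Q163.ER

open Pool.Agent.Q163.RP Pool.Agent.Q163.RX
open Pool.Agent.Y842.PG (shz)
open Pool.Agent.Helper602.MK (ee)
open Pool.Agent.Helper602.MK.N_J1c (c_ee_add c_ee_int c_norm_ee)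
open Pool.Agent.W208.TL (KF)

/-- one system of forms -/
lemma ksys (P : Set ℕ) (hP : Tendsto (Pool.Agent.Q163.RX.mass P ll) atTop atTop) (k : ℕ)
    (V : ℕ → ℂ) (hV : ∀ n, ‖V n‖ ≤ 1) (a b : Fin (k + 1) → ℕ) (a₀ b₀ : ℕ) (ha₀ : 1 ≤ a₀) (ha : ∀ i, 1 ≤ a i)
    (hab : ∀ i j, i ≠ j → a i * b j ≠ a j * b i) (hab₀ : ∀ i, a₀ * b i ≠ a i * b₀) :
    ∀ᵐ ω ∂cm, ∀ ε : ℝ, 0 < ε → ∃ N₀ : ℕ, ∀ N : ℕ, N₀ ≤ N → ∀ f : ℕ → ℂ, KF f → ∀ α : ℝ,
      ‖∑ n ∈ Icc 1 N, f (a₀ * n + b₀) * (V n * ∏ i, ((rnd P ω (a i * n + b i) : ℝ) : ℂ)) * ee (α * n)‖ ≤ ε * N := by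
  classical
  set c : Fin (k + 1) → ℤ := fun i => (a₀ : ℤ) * b i - a i * b₀ with hc
  have hc0 : ∀ i, c i ≠ 0 := by
    intro i h
    refine hab₀ i ?_
    have h1 : (a₀ : ℤ) * b i - a i * b₀ = 0 := h
    have h2 : (a₀ : ℤ) * b i = a i * b₀ := by linarith
    exact_mod_cast h2
  have hac : ∀ i j, i ≠ j → (a i : ℤ) * c j ≠ a j * c i := by
    intro i j hij h
    refine hab i j hij ?_
    have h1 : (a i : ℤ) * ((a₀ : ℤ) * b j - a j * b₀) = a j * ((a₀ : ℤ) * b i - a i * b₀) := h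
    have h2 : (a₀ : ℤ) * (a i * b j) = a₀ * (a j * b i) := by linarith
    have h3 : (a₀ : ℤ) ≠ 0 := by exact_mod_cast (by omega : a₀ ≠ 0)
    have h4 := mul_left_cancel₀ h3 h2
    exact_mod_cast h4
  set B : ℕ := ∑ i, a i + ∑ i, (c i).natAbs + ∑ i, ∑ j, ((a i : ℤ) * c j - a j * c i).natAbs with hB
  have hBa : ∀ i, a i ≤ B := by
    intro i
    have := Finset.single_le_sum (f := fun i => a i) (fun _ _ => Nat.zero_le _) (mem_univ i)
    omega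
  have hBc : ∀ i, |c i| ≤ B := by
    intro i
    have := Finset.single_le_sum (f := fun i => (c i).natAbs) (fun _ _ => Nat.zero_le _) (mem_univ i)
    rw [Int.abs_eq_natAbs]
    exact_mod_cast (by omega : (c i).natAbs ≤ B)
  have hBac : ∀ i j, |(a i : ℤ) * c j - a j * c i| ≤ B := by
    intro i j
    have h1 := Finset.single_le_sum (f := fun i => ∑ j, ((a i : ℤ) * c j - a j * c i).natAbs)
      (fun _ _ => Nat.zero_le _) (mem_univ i)
    have h2 := Finset.single_le_sum (f := fun j => ((a i : ℤ) * c j - a j * c i).natAbs)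
      (fun _ _ => Nat.zero_le _) (mem_univ j)
    rw [Int.abs_eq_natAbs]
    exact_mod_cast (by omega : ((a i : ℤ) * c j - a j * c i).natAbs ≤ B)
  have hae : ∀ᵐ ω ∂cm, ∀ p q e : ℕ, p.Prime → q.Prime → p ≠ q → B < p → B < q → 1 ≤ e →
      ∀ ε : ℝ, 0 < ε → ∃ N₀ : ℕ, ∀ N : ℕ, N₀ ≤ N →
      ‖∑ m ∈ range N, (pw V a₀ b₀ (p * m) * (starRingEnd ℂ) (pw V a₀ b₀ (q * m)) *
          (starRingEnd ℂ) (pw V a₀ b₀ (p * (m + e)) * (starRingEnd ℂ) (pw V a₀ b₀ (q * (m + e))))) *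
        ∏ y : Fin (k + 1) × Bool × Bool, ((rnd P ω (((a y.1 * (if y.2.1 then p else q) : ℕ) : ℤ) * m +
          (c y.1 + if y.2.2 then ((a y.1 * (if y.2.1 then p else q) : ℕ) : ℤ) * e else 0)).toNat : ℝ) : ℂ)‖ ≤
        ε * N := by
    rw [ae_all_iff]
    intro p
    rw [ae_all_iff]
    intro q
    rw [ae_all_iff]
    intro e
    by_cases hcond : p.Prime ∧ q.Prime ∧ p ≠ q ∧ B < p ∧ B < q ∧ 1 ≤ e
    · obtain ⟨hp, hq, hpq, hpB, hqB, he⟩ := hcond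
      have h1 := asz P hP (ι := Fin (k + 1) × Bool × Bool) (fun y => a y.1 * (if y.2.1 then p else q))
        (fun y => c y.1 + if y.2.2 then ((a y.1 * (if y.2.1 then p else q) : ℕ) : ℤ) * e else 0)
        (fun y => Nat.mul_pos (ha _) (by split_ifs; exacts [hp.pos, hq.pos]))
        (fun x y hxy => four a c ha hc0 hac B p q e hBa hBc hBac hp hq hpq hpB hqB he x y hxy)
        (fun m => pw V a₀ b₀ (p * m) * (starRingEnd ℂ) (pw V a₀ b₀ (q * m)) *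
          (starRingEnd ℂ) (pw V a₀ b₀ (p * (m + e)) * (starRingEnd ℂ) (pw V a₀ b₀ (q * (m + e)))))
        (fun m => by
          rw [norm_mul, norm_mul, RCLike.norm_conj, RCLike.norm_conj, norm_mul, RCLike.norm_conj]
          exact mul_le_one₀ (mul_le_one₀ (pw_le V hV _ _ _) (norm_nonneg _) (pw_le V hV _ _ _)) (by positivity)
            (mul_le_one₀ (pw_le V hV _ _ _) (norm_nonneg _) (pw_le V hV _ _ _)))
      filter_upwards [h1] with ω h2 _ _ _ _ _ _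
      exact h2
    · exact Filter.Eventually.of_forall fun ω h1 h2 h3 h4 h5 h6 => (hcond ⟨h1, h2, h3, h4, h5, h6⟩).elim
  filter_upwards [hae] with ω hω ε hε
  refine kdet (rnd P ω) (rnd_abs P ω) (fun m n hm hn => ?_) a b a₀ b₀ ha ha₀ V hV B ?_ ε hε
  · unfold rnd
    exact mult_mul _ (by omega) (by omega)
  · intro p q hp hq hpq hpB hqB ε hε
    exact usmall (rnd P ω) a c (pw V a₀ b₀) (pw_le V hV a₀ b₀) (rnd_abs P ω) p q
      (fun e he => hω p q e hp hq hpq hpB hqB he) ε hε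

/-- functions with `f (p n) = c p * f' n` for primes `p` not dividing `n` -/
def Ka (f : ℕ → ℂ) : Prop := (∀ n, 1 ≤ n → ‖f n‖ ≤ 1) ∧ ∃ c f' : ℕ → ℂ, (∀ p : ℕ, p.Prime → ‖c p‖ ≤ 1) ∧
  (∀ n, 1 ≤ n → ‖f' n‖ ≤ 1) ∧ ∀ p n : ℕ, p.Prime → ¬ p ∣ n → f (p * n) = c p * f' n

lemma kf_of (f : ℕ → ℂ) (hf : Ka f) : KF (z0 f) := by
  classical
  obtain ⟨h1, c, f', hc, hf', hcf⟩ := hf
  have hz : ∀ (u : ℕ → ℂ), (∀ n, 1 ≤ n → ‖u n‖ ≤ 1) → ∀ n, ‖z0 u n‖ ≤ 1 := by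
    intro u hu n
    rcases Nat.eq_zero_or_pos n with rfl | hn
    · unfold z0
      simp
    · rw [z0_pos u n hn]
      exact hu n hn
  refine ⟨hz f h1, fun p => if p.Prime then c p else 0, z0 f', fun p => ?_, hz f' hf', fun p n hp hn => ?_⟩
  · show ‖(if p.Prime then c p else 0 : ℂ)‖ ≤ 1
    split_ifs with h
    · exact hc p h
    · simp
  · have hn0 : n ≠ 0 := by
      rintro rfl
      exact hn (dvd_zero p)
    rw [z0_pos f _ (Nat.mul_pos hp.pos (by omega)), z0_pos f' _ (by omega)]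
    show f (p * n) = (if p.Prime then c p else 0 : ℂ) * f' n
    rw [if_pos hp]
    exact hcf p n hp hn

/-- **the theorem** -/
theorem kall (P : Set ℕ) (hP : Tendsto (Pool.Agent.Q163.RX.mass P ll) atTop atTop) (g : ℕ → ℕ → ℂ)
    (hg : ∀ s n, 1 ≤ n → ‖g s n‖ ≤ 1) :
    ∀ᵐ ω ∂cm, ∀ (k a₀ b₀ : ℕ) (s a b : Fin (k + 1) → ℕ), 1 ≤ a₀ → (∀ i, 1 ≤ a i) →
      (∀ i, a₀ * b i ≠ a i * b₀) → (∀ i j, i ≠ j → a i * b j ≠ a j * b i) →
      ∀ ε : ℝ, 0 < ε → ∃ N₀ : ℕ, ∀ N : ℕ, N₀ ≤ N → ∀ f : ℕ → ℂ, Ka f → ∀ α : ℝ,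
        ‖∑ n ∈ Icc 1 N, f (a₀ * n + b₀) *
          (∏ i, (g (s i) (a i * n + b i) * ((rnd P ω (a i * n + b i) : ℝ) : ℂ))) * ee (α * n)‖ ≤ ε * N := by
  rw [ae_all_iff]
  intro k
  rw [ae_all_iff]
  intro a₀
  rw [ae_all_iff]
  intro b₀
  rw [ae_all_iff]
  intro s
  rw [ae_all_iff]
  intro a
  rw [ae_all_iff]
  intro b
  by_cases hcond : 1 ≤ a₀ ∧ (∀ i, 1 ≤ a i) ∧ (∀ i, a₀ * b i ≠ a i * b₀) ∧ (∀ i j, i ≠ j → a i * b j ≠ a j * b i)
  · obtain ⟨ha₀, ha, hab₀, hab⟩ := hcond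
    have hz : ∀ (s n : ℕ), ‖z0 (g s) n‖ ≤ 1 := by
      intro s n
      rcases Nat.eq_zero_or_pos n with rfl | hn
      · unfold z0
        simp
      · rw [z0_pos (g s) n hn]
        exact hg s n hn
    have h1 := ksys P hP k (fun n => ∏ i, z0 (g (s i)) (a i * n + b i)) (fun n => by
      rw [norm_prod]
      exact prod_le_one (fun _ _ => norm_nonneg _) (fun i _ => hz _ _)) a b a₀ b₀ ha₀ ha hab hab₀
    filter_upwards [h1] with ω h2 _ _ _ _ ε hε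
    obtain ⟨N₀, h3⟩ := h2 ε hε
    refine ⟨N₀, fun N hN f hf α => ?_⟩
    refine le_trans (le_of_eq ?_) (h3 N hN (z0 f) (kf_of f hf) α)
    congr 1
    refine sum_congr rfl fun n hn => ?_
    have hn1 := (mem_Icc.1 hn).1
    have e1 : 1 ≤ a₀ * n := Nat.mul_pos ha₀ hn1
    rw [z0_pos f _ (by omega), ← Finset.prod_mul_distrib]
    congr 2
    refine Finset.prod_congr rfl fun i _ => ?_
    have e2 : 1 ≤ a i * n := Nat.mul_pos (ha i) hn1
    rw [z0_pos (g (s i)) _ (by omega)]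
  · exact Filter.Eventually.of_forall fun ω h1 h2 h3 h4 => (hcond ⟨h1, h2, h3, h4⟩).elim

end Pool.Agent.Q163.ER
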