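import Pool.Agent.Q163.ER.Ch
import Pool.Agent.Q163.RX.Thr

/-!
Project ER (helper163), part 4: almost every random function is good.
-/

set_option autoImplicit false

open Finset Filter Topology MeasureTheory ProbabilityTheory

namespace Pool.Agent.Q163.ER

open Pool.Agent.Q163.RP Pool.Agent.Q163.RX

/-- the random function: completely multiplicative, with the sign `ω p` at the primes of `P` and the value `1` at the
other primes -/
noncomputable def rnd (P : Set ℕ) (ω : ℕ → Bool) (n : ℕ) : ℝ := mult (sg P es ω) n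

lemma rnd_sq (P : Set ℕ) (ω : ℕ → Bool) (n : ℕ) : rnd P ω n ^ 2 = 1 := by
  unfold rnd mult
  rw [← Finset.prod_pow]
  refine Finset.prod_eq_one fun p _ => ?_
  rw [← pow_mul, mul_comm, pow_mul]
  have h1 : sg P es ω p ^ 2 = 1 := by
    unfold sg es sgn
    split_ifs <;> norm_num
  rw [h1, one_pow]

lemma rnd_abs (P : Set ℕ) (ω : ℕ → Bool) (n : ℕ) : |rnd P ω n| = 1 := by
  have h1 := rnd_sq P ω n
  have h2 : |rnd P ω n| ^ 2 = 1 := by rw [sq_abs]; exact h1
  nlinarith [abs_nonneg (rnd P ω n)]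

/-- powers of the random function -/
lemma rnd_pow (P : Set ℕ) (ω : ℕ → Bool) (n k : ℕ) : rnd P ω n ^ k = if Odd k then rnd P ω n else 1 := by
  split_ifs with h
  · obtain ⟨j, rfl⟩ := h
    rw [pow_succ, pow_mul, rnd_sq, one_pow, one_mul]
  · rw [Nat.not_odd_iff_even] at h
    obtain ⟨j, rfl⟩ := h
    rw [← two_mul, pow_mul, rnd_sq, one_pow]

/-- products over lists of shifts -/
lemma rnd_list (P : Set ℕ) (ω : ℕ → Bool) (l : List ℤ) (m : ℕ) :
    (l.map fun s => rnd P ω ((m : ℤ) + s).toNat).prod =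
      ∏ s ∈ l.toFinset.filter (fun s => Odd (l.count s)), rnd P ω ((m : ℤ) + s).toNat := by
  rw [Finset.prod_list_map_count, Finset.prod_filter]
  exact Finset.prod_congr rfl fun s _ => rnd_pow P ω _ _

/-- complex weights -/
theorem cthr (P : Set ℕ) (hP : Tendsto (Pool.Agent.Q163.RX.mass P ll) atTop atTop) (k : ℕ)
    (hk : 1 ≤ k) (a b : Fin k → ℕ) (ha : ∀ i, 1 ≤ a i) (hab : ∀ i j, i ≠ j → a i * b j ≠ a j * b i)
    (w : ℕ → ℂ) (hw : ∀ n, ‖w n‖ ≤ 1) :
    ∀ᵐ ω ∂cm, Tendsto (fun N : ℕ => (∑ n ∈ Icc 1 N, w n *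
      ∏ i, ((rnd P ω (a i * n + b i) : ℝ) : ℂ)) / N) atTop (𝓝 0) := by
  have hre := thr P hP k hk a b ha hab (fun n => (w n).re)
    (fun n => (Complex.abs_re_le_norm _).trans (hw n))
  have him := thr P hP k hk a b ha hab (fun n => (w n).im)
    (fun n => (Complex.abs_im_le_norm _).trans (hw n))
  filter_upwards [hre, him] with ω h2 h3
  have h4 := ((Complex.continuous_ofReal.tendsto 0).comp h2).add
    (((Complex.continuous_ofReal.tendsto 0).comp h3).mul_const Complex.I)
  rw [Complex.ofReal_zero, zero_mul, add_zero] at h4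
  refine h4.congr fun N => ?_
  simp only [Function.comp]
  push_cast
  rw [div_mul_eq_mul_div, ← add_div, Finset.sum_mul, ← Finset.sum_add_distrib]
  congr 1
  refine Finset.sum_congr rfl fun n _ => ?_
  have h6 := Complex.re_add_im (w n)
  unfold rnd
  linear_combination (∏ i, (mult (sg P es ω) (a i * n + b i) : ℂ)) * h6

lemma pat_mul (u : ℕ → ℂ) (x : ℕ → ℝ) (L : List (ℤ × Bool)) (z : ℤ) :
    pat (fun n => u n * (x n : ℂ)) L z =
      pat u L z * (((L.map Prod.fst).map fun s => x (z + s).toNat).prod : ℝ) := by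
  induction L with
  | nil => simp [pat]
  | cons y L ih =>
    unfold pat at ih ⊢
    rw [List.map_cons, List.prod_cons, ih, List.map_cons, List.prod_cons, List.map_cons, List.map_cons,
      List.prod_cons, Complex.ofReal_mul]
    have h1 : cj y.2 (u (z + y.1).toNat * (x (z + y.1).toNat : ℂ)) =
        cj y.2 (u (z + y.1).toNat) * (x (z + y.1).toNat : ℂ) := by
      unfold cj
      split_ifs
      · rw [map_mul, Complex.conj_ofReal]
      · rfl
    rw [h1]
    ring

/-- **almost every random function is good** -/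
theorem good (P : Set ℕ) (hP : Tendsto (Pool.Agent.Q163.RX.mass P ll) atTop atTop) (u : ℕ → ℂ)
    (hu : ∀ n, ‖u n‖ ≤ 1) : ∀ᵐ ω ∂cm, EQ (fun n => u n * (rnd P ω n : ℂ)) := by
  classical
  unfold EQ
  rw [ae_all_iff]
  intro L
  by_cases hL : ∀ x ∈ L, 0 ≤ x.1
  swap
  · exact Eventually.of_forall fun ω h => absurd h hL
  by_cases hO : Odp L
  swap
  · exact Eventually.of_forall fun ω _ h => absurd h hO
  set l := L.map Prod.fst with hl
  have hl0 : ∀ s ∈ l, 0 ≤ s := by
    intro s hs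
    rw [hl, List.mem_map] at hs
    obtain ⟨x, hx, rfl⟩ := hs
    exact hL x hx
  set A : Finset ℤ := l.toFinset.filter (fun s => Odd (l.count s)) with hA
  have hA0 : ∀ s ∈ A, 0 ≤ s := fun s hs => hl0 s (List.mem_toFinset.1 (mem_filter.1 hs).1)
  have hAne : 1 ≤ A.card := by
    obtain ⟨s, hs⟩ := hO
    refine card_pos.2 ⟨s, mem_filter.2 ⟨?_, hs⟩⟩
    rw [List.mem_toFinset]
    by_contra h
    rw [← hl, List.count_eq_zero_of_not_mem h] at hs
    exact (by decide : ¬ Odd 0) hs
  have h1 := cthr P hP A.card hAne (fun _ => 1) (fun j => (A.orderEmbOfFin rfl j).toNat) (fun _ => le_rfl)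
    (fun i j hij h => by
      rw [one_mul, one_mul] at h
      have e1 := hA0 _ (A.orderEmbOfFin_mem rfl i)
      have e2 := hA0 _ (A.orderEmbOfFin_mem rfl j)
      have e3 : A.orderEmbOfFin rfl i = A.orderEmbOfFin rfl j := by omega
      exact hij ((A.orderEmbOfFin rfl).injective e3))
    (fun m => pat u L m) (fun m => pat_norm u hu L m)
  filter_upwards [h1] with ω h2 _ _
  have h3 : ∀ m : ℕ, pat (fun n => u n * (rnd P ω n : ℂ)) L m =
      pat u L m * ∏ j : Fin A.card, ((rnd P ω (1 * m + (A.orderEmbOfFin rfl j).toNat) : ℝ) : ℂ) := by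
    intro m
    rw [pat_mul, rnd_list]
    congr 1
    push_cast
    have h4 : ∀ F : ℤ → ℂ, ∏ j : Fin A.card, F (A.orderEmbOfFin rfl j) = ∏ s ∈ A, F s := by
      intro F
      have h4 : Finset.univ.image (A.orderEmbOfFin (rfl : A.card = A.card)) = A :=
        A.image_orderEmbOfFin_univ rfl
      conv_rhs => rw [← h4]
      rw [Finset.prod_image]
      intro x _ y _ h
      exact (A.orderEmbOfFin rfl).injective h
    rw [← h4]
    refine Finset.prod_congr rfl fun j _ => ?_
    have e1 := hA0 _ (A.orderEmbOfFin_mem rfl j)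
    congr 3
    omega
  set F : ℕ → ℂ := fun m => pat (fun n => u n * (rnd P ω n : ℂ)) L m with hF
  have h5 : Tendsto (fun N : ℕ => (∑ m ∈ Icc 1 N, F m) / (N : ℂ)) atTop (𝓝 0) := by
    refine h2.congr fun N => ?_
    congr 1
    exact Finset.sum_congr rfl fun m _ => (h3 m).symm
  have hb : ∀ n, ‖u n * (rnd P ω n : ℂ)‖ ≤ 1 := by
    intro n
    rw [norm_mul, Complex.norm_real, Real.norm_eq_abs, rnd_abs, mul_one]
    exact hu n
  have hF1 : ∀ m, ‖F m‖ ≤ 1 := fun m => pat_norm _ hb L m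
  have h6 : Tendsto (fun N : ℕ => (F 0 - F N) / (N : ℂ)) atTop (𝓝 0) := by
    rw [tendsto_zero_iff_norm_tendsto_zero]
    have h7 : Tendsto (fun N : ℕ => 2 / (N : ℝ)) atTop (𝓝 0) := tendsto_const_div_atTop_nhds_zero_nat 2
    refine squeeze_zero (fun _ => norm_nonneg _) (fun N => ?_) h7
    rw [norm_div, Complex.norm_natCast]
    apply div_le_div_of_nonneg_right _ (Nat.cast_nonneg N)
    have h8 := norm_sub_le (F 0) (F N)
    have h9 := hF1 0
    have h10 := hF1 N
    linarith
  have h7 := h5.add h6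
  rw [add_zero] at h7
  refine h7.congr fun N => ?_
  rw [← add_div]
  congr 1
  rw [Pool.Agent.Y842.PG.sum_shift F N]
  show _ = ∑ m ∈ range N, F m
  ring

end Pool.Agent.Q163.ER
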