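import Pool.Agent.Q163.ER.Vdc
import Pool.Agent.Q163.ER.Rnd
import Pool.Agent.W699.TLKat

/-!
Project ER (helper163), part 7: one arbitrary function of Katai's class, all scales, natural averages.
-/

set_option autoImplicit false

open Finset Filter Topology MeasureTheory ProbabilityTheory

namespace Pool.Agent.Q163.ER

open Pool.Agent.Q163.RP Pool.Agent.Q163.RX
open Pool.Agent.Y842.PG (shz)
open Pool.Agent.Helper602.MK (ee)
open Pool.Agent.Helper602.MK.N_J1c (c_ee_add c_ee_int c_norm_ee)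
open Pool.Agent.W208.TL (KF)

lemma rnd_prod_norm (P : Set ℕ) (ω : ℕ → Bool) {ι : Type} (s : Finset ι) (n : ι → ℕ) :
    ‖∏ i ∈ s, ((rnd P ω (n i) : ℝ) : ℂ)‖ = 1 := by
  rw [norm_prod]
  refine Finset.prod_eq_one fun i _ => ?_
  rw [Complex.norm_real, Real.norm_eq_abs, rnd_abs]

/-- integer forms -/
theorem asz (P : Set ℕ) (hP : Tendsto (Pool.Agent.Q163.RX.mass P ll) atTop atTop) {ι : Type} [Fintype ι]
    [Nonempty ι] (A : ι → ℕ) (C : ι → ℤ) (hA : ∀ i, 1 ≤ A i)
    (hAC : ∀ i j, i ≠ j → (A i : ℤ) * C j ≠ A j * C i) (w : ℕ → ℂ) (hw : ∀ n, ‖w n‖ ≤ 1) :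
    ∀ᵐ ω ∂cm, ∀ ε : ℝ, 0 < ε → ∃ N₀ : ℕ, ∀ N : ℕ, N₀ ≤ N →
      ‖∑ m ∈ range N, w m * ∏ i, ((rnd P ω ((A i : ℤ) * m + C i).toNat : ℝ) : ℂ)‖ ≤ ε * N := by
  classical
  obtain ⟨t, ht⟩ : ∃ t : ℕ, ∀ i, |C i| ≤ t := by
    refine ⟨∑ i, (C i).natAbs, fun i => ?_⟩
    have h1 : (C i).natAbs ≤ ∑ i, (C i).natAbs :=
      Finset.single_le_sum (f := fun i => (C i).natAbs) (fun _ _ => Nat.zero_le _) (mem_univ i)
    rw [Int.abs_eq_natAbs]
    exact_mod_cast h1
  have htA : ∀ i, 0 ≤ (A i : ℤ) * t + C i := by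
    intro i
    have h1 := ht i
    have h2 := (abs_le.1 h1).1
    have h3 : (1 : ℤ) ≤ A i := by exact_mod_cast hA i
    nlinarith
  set k := Fintype.card ι with hk
  have hk1 : 1 ≤ k := Fintype.card_pos
  set e : Fin k ≃ ι := (Fintype.equivFin ι).symm with he
  have h1 := cthr P hP k hk1 (fun j => A (e j)) (fun j => ((A (e j) : ℤ) * t + C (e j)).toNat)
    (fun j => hA _) (fun i j hij h => by
      have h2 : ((A (e i) * ((A (e j) : ℤ) * t + C (e j)).toNat : ℕ) : ℤ) =
        ((A (e j) * ((A (e i) : ℤ) * t + C (e i)).toNat : ℕ) : ℤ) := by exact_mod_cast h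
      push_cast at h2
      rw [Int.toNat_of_nonneg (htA _), Int.toNat_of_nonneg (htA _)] at h2
      refine hAC (e i) (e j) (fun h => hij (e.injective h)) ?_
      linarith) (fun n => w (n + t)) (fun n => hw _)
  filter_upwards [h1] with ω h2 ε hε
  set U : ℕ → ℂ := fun m => w m * ∏ i, ((rnd P ω ((A i : ℤ) * m + C i).toNat : ℝ) : ℂ) with hU
  have hU1 : ∀ m, ‖U m‖ ≤ 1 := by
    intro m
    rw [hU]
    show ‖w m * ∏ i, ((rnd P ω ((A i : ℤ) * m + C i).toNat : ℝ) : ℂ)‖ ≤ 1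
    rw [norm_mul, rnd_prod_norm, mul_one]
    exact hw m
  have h3 : ∀ N : ℕ, ∑ n ∈ Icc 1 N, w (n + t) *
      ∏ j, ((rnd P ω (A (e j) * n + ((A (e j) : ℤ) * t + C (e j)).toNat) : ℝ) : ℂ) = ∑ n ∈ Icc 1 N, U (n + t) := by
    intro N
    refine Finset.sum_congr rfl fun n _ => ?_
    rw [hU]
    show _ = w (n + t) * ∏ i, ((rnd P ω ((A i : ℤ) * ((n + t : ℕ) : ℤ) + C i).toNat : ℝ) : ℂ)
    congr 1
    rw [← Equiv.prod_comp e]
    refine Finset.prod_congr rfl fun j _ => ?_
    congr 3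
    have h4 := htA (e j)
    push_cast
    have h5 : (A (e j) : ℤ) * (n + t) + C (e j) = (A (e j) * n : ℕ) + ((A (e j) : ℤ) * t + C (e j)) := by
      push_cast
      ring
    rw [h5]
    omega
  have h4 := (tendsto_zero_iff_norm_tendsto_zero.1 h2).eventually_le_const (show (0 : ℝ) < ε / 2 by positivity)
  obtain ⟨N₁, hN₁⟩ := eventually_atTop.1 h4
  obtain ⟨N₂, hN₂⟩ := exists_nat_ge ((4 * t + 4) / ε)
  refine ⟨N₁ + N₂ + 1, fun N hN => ?_⟩
  have h5 := hN₁ N (by omega)
  have hN0 : (0 : ℝ) < N := by exact_mod_cast (by omega : 0 < N)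
  rw [norm_div, Complex.norm_natCast, div_le_iff₀ hN0, h3 N] at h5
  have h6 := shz N t (fun z => U z.toNat) 1 (fun z => hU1 _)
  have e1 : ∑ m ∈ range N, (fun z : ℤ => U z.toNat) ((m : ℤ) + (t : ℤ)) = ∑ m ∈ range N, U (m + t) := by
    refine Finset.sum_congr rfl fun m _ => ?_
    show U ((m : ℤ) + (t : ℤ)).toNat = U (m + t)
    congr 1
  have e2 : ∑ m ∈ range N, (fun z : ℤ => U z.toNat) (m : ℤ) = ∑ m ∈ range N, U m := rfl
  rw [e1, e2] at h6
  have e3 := Pool.Agent.Y842.PG.sum_shift (fun n => U (n + t)) N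
  have e4 : ‖∑ m ∈ range N, U (m + t)‖ ≤ ‖∑ n ∈ Icc 1 N, U (n + t)‖ + 2 := by
    have e5 : ∑ m ∈ range N, U (m + t) = ∑ n ∈ Icc 1 N, U (n + t) - (U (N + t) - U (0 + t)) := by
      rw [e3]
      ring
    rw [e5]
    refine (norm_sub_le _ _).trans ?_
    have e6 := norm_sub_le (U (N + t)) (U (0 + t))
    have e7 := hU1 (N + t)
    have e8 := hU1 (0 + t)
    linarith
  have e5 := norm_sub_norm_le (∑ m ∈ range N, U m) (∑ m ∈ range N, U (m + t))
  rw [norm_sub_rev] at e5
  have e6 : 2 * |((t : ℤ) : ℝ)| * 1 = 2 * t := by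
    rw [Int.cast_natCast, Nat.abs_cast, mul_one]
  rw [e6] at h6
  have e7 : 2 * (t : ℝ) + 2 ≤ ε / 2 * N := by
    have h8 : (4 * (t : ℝ) + 4) / ε ≤ N := hN₂.trans (by exact_mod_cast (by omega : N₂ ≤ N))
    rw [div_le_iff₀ hε] at h8
    linarith
  have e8 : ‖∑ m ∈ range N, U m‖ ≤ ε * N := by linarith
  exact e8

/-- the four forms are not proportional -/
lemma four {k : ℕ} (a : Fin k → ℕ) (c : Fin k → ℤ) (ha : ∀ i, 1 ≤ a i) (hc : ∀ i, c i ≠ 0)
    (hac : ∀ i j, i ≠ j → (a i : ℤ) * c j ≠ a j * c i) (B p q e : ℕ)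
    (hBa : ∀ i, a i ≤ B) (hBc : ∀ i, |c i| ≤ B) (hBac : ∀ i j, |(a i : ℤ) * c j - a j * c i| ≤ B)
    (hp : p.Prime) (hq : q.Prime) (hpq : p ≠ q) (hpB : B < p) (hqB : B < q) (he : 1 ≤ e)
    (x y : Fin k × Bool × Bool) (hxy : x ≠ y) :
    ((a x.1 * (if x.2.1 then p else q) : ℕ) : ℤ) *
        (c y.1 + if y.2.2 then ((a y.1 * (if y.2.1 then p else q) : ℕ) : ℤ) * e else 0) ≠
      ((a y.1 * (if y.2.1 then p else q) : ℕ) : ℤ) *
        (c x.1 + if x.2.2 then ((a x.1 * (if x.2.1 then p else q) : ℕ) : ℤ) * e else 0) := by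
  obtain ⟨i, s, r⟩ := x
  obtain ⟨j, s', r'⟩ := y
  simp only
  intro h
  set Ps : ℕ := if s then p else q with hPs
  set Pt : ℕ := if s' then p else q with hPt
  have hPsp : Ps.Prime := by rw [hPs]; split_ifs <;> assumption
  have hPsB : B < Ps := by rw [hPs]; split_ifs <;> assumption
  have hPtp : Pt.Prime := by rw [hPt]; split_ifs <;> assumption
  have hai := ha i
  have haj := ha j
  by_cases hs : s = s'
  · have hPP : Pt = Ps := by rw [hPs, hPt, hs]
    rw [hPP] at h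
    have hPs0 : (Ps : ℤ) ≠ 0 := by exact_mod_cast hPsp.ne_zero
    have h1 : (a i : ℤ) * c j - a j * c i =
        (a i : ℤ) * a j * Ps * e * ((if r then 1 else 0) - (if r' then 1 else 0)) := by
      have h2 : (Ps : ℤ) * ((a i : ℤ) * c j - a j * c i) =
          Ps * ((a i : ℤ) * a j * Ps * e * ((if r then 1 else 0) - (if r' then 1 else 0))) := by
        push_cast at h
        rcases Bool.eq_false_or_eq_true r with hr | hr <;> rcases Bool.eq_false_or_eq_true r' with hr' | hr' <;>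
          simp only [hr, hr', if_true, if_false, Bool.false_eq_true] at h ⊢ <;> linarith
      exact mul_left_cancel₀ hPs0 h2
    by_cases hr : r = r'
    · rw [hr, sub_self, mul_zero] at h1
      have hij : i ≠ j := by
        rintro rfl
        exact hxy (by rw [hs, hr])
      exact hac i j hij (sub_eq_zero.1 h1)
    · have h2 : |(a i : ℤ) * a j * Ps * e * ((if r then 1 else 0) - (if r' then 1 else 0))| =
          (a i : ℤ) * a j * Ps * e := by
        rw [abs_mul]
        have h3 : |((if r then (1 : ℤ) else 0) - (if r' then 1 else 0))| = 1 := by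
          rcases Bool.eq_false_or_eq_true r with h3 | h3 <;> rcases Bool.eq_false_or_eq_true r' with h4 | h4 <;>
            simp [h3, h4] at hr ⊢
        rw [h3, mul_one, abs_of_nonneg (by positivity)]
      have h3 := hBac i j
      rw [h1, h2] at h3
      have h4 : (Ps : ℤ) ≤ (a i : ℤ) * a j * Ps * e := by
        have h5 : (1 : ℤ) ≤ (a i : ℤ) * a j * e := by
          have e1 : (1 : ℤ) ≤ a i := by exact_mod_cast hai
          have e2 : (1 : ℤ) ≤ a j := by exact_mod_cast haj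
          have e3 : (1 : ℤ) ≤ e := by exact_mod_cast he
          nlinarith [mul_le_mul e1 e2 (by norm_num) (by linarith)]
        have h6 : (0 : ℤ) ≤ Ps := by positivity
        nlinarith
      have h5 : (B : ℤ) < Ps := by exact_mod_cast hPsB
      linarith
  · have hne : Ps ≠ Pt := by
      rw [hPs, hPt]
      rcases Bool.eq_false_or_eq_true s with h3 | h3 <;> rcases Bool.eq_false_or_eq_true s' with h4 | h4 <;>
        simp [h3, h4] at hs ⊢
      · exact hpq
      · exact fun h => hpq h.symm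
    have h1 : (Ps : ℤ) ∣ (a j : ℤ) * Pt * c i := by
      have h2 : (a j : ℤ) * Pt * c i = Ps * ((a i : ℤ) * (c j + if r' then ((a j * Pt : ℕ) : ℤ) * e else 0) -
          (a j : ℤ) * Pt * (if r then (a i : ℤ) * e else 0)) := by
        push_cast at h ⊢
        rcases Bool.eq_false_or_eq_true r with hr | hr <;> rcases Bool.eq_false_or_eq_true r' with hr' | hr' <;>
          simp only [hr, hr', if_true, if_false, Bool.false_eq_true] at h ⊢ <;> linarith
      rw [h2]
      exact dvd_mul_right _ _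
    have hPi : Prime (Ps : ℤ) := Nat.prime_iff_prime_int.1 hPsp
    rcases hPi.dvd_or_dvd h1 with h2 | h2
    · rcases hPi.dvd_or_dvd h2 with h3 | h3
      · have h4 : Ps ∣ a j := by exact_mod_cast h3
        have h5 := Nat.le_of_dvd haj h4
        have h6 := hBa j
        omega
      · have h4 : Ps ∣ Pt := by exact_mod_cast h3
        exact hne ((Nat.prime_dvd_prime_iff_eq hPsp hPtp).1 h4)
    · have h3 := Int.le_of_dvd (abs_pos.2 (hc i)) ((dvd_abs _ _).2 h2)
      have h4 := hBc i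
      have h5 : (B : ℤ) < Ps := by exact_mod_cast hPsB
      linarith

end Pool.Agent.Q163.ER
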