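import Pool.Agent.Q163.ER.Kat

/-!
Project ER (helper163), part 8: one arbitrary function of Katai's class, all scales, natural averages.
-/

set_option autoImplicit false

open Finset Filter Topology MeasureTheory ProbabilityTheory

namespace Pool.Agent.Q163.ER

open Pool.Agent.Q163.RP Pool.Agent.Q163.RX
open Pool.Agent.Y842.PG (shz)
open Pool.Agent.Helper602.MK (ee)
open Pool.Agent.Helper602.MK.N_J1c (c_ee_add c_ee_int c_norm_ee)
open Pool.Agent.W208.TL (KF)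

/-- the correlations of the products over two primes -/
lemma usmall (x : ℕ → ℝ) {k : ℕ} (a : Fin k → ℕ) (c : Fin k → ℤ) (V : ℕ → ℂ) (hV : ∀ n, ‖V n‖ ≤ 1)
    (hx : ∀ n, |x n| = 1) (p q : ℕ)
    (H : ∀ e : ℕ, 1 ≤ e → ∀ ε : ℝ, 0 < ε → ∃ N₀ : ℕ, ∀ N : ℕ, N₀ ≤ N →
      ‖∑ m ∈ range N, (V (p * m) * (starRingEnd ℂ) (V (q * m)) *
          (starRingEnd ℂ) (V (p * (m + e)) * (starRingEnd ℂ) (V (q * (m + e))))) *
        ∏ y : Fin k × Bool × Bool, ((x (((a y.1 * (if y.2.1 then p else q) : ℕ) : ℤ) * m +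
          (c y.1 + if y.2.2 then ((a y.1 * (if y.2.1 then p else q) : ℕ) : ℤ) * e else 0)).toNat : ℝ) : ℂ)‖ ≤
        ε * N) (ε : ℝ) (hε : 0 < ε) :
    ∃ N₀ : ℕ, ∀ N : ℕ, N₀ ≤ N → ∀ θ : ℝ, ‖∑ m ∈ range N, (V (p * m) * (starRingEnd ℂ) (V (q * m)) *
      ∏ i, (((x ((a i : ℤ) * (p * m : ℕ) + c i).toNat : ℝ) : ℂ) *
        ((x ((a i : ℤ) * (q * m : ℕ) + c i).toNat : ℝ) : ℂ))) * ee (θ * m)‖ ≤ ε * N := by
  set u : ℤ → ℂ := fun z => V (p * z.toNat) * (starRingEnd ℂ) (V (q * z.toNat)) *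
      ∏ i, (((x ((a i : ℤ) * (p * z.toNat : ℕ) + c i).toNat : ℝ) : ℂ) *
        ((x ((a i : ℤ) * (q * z.toNat : ℕ) + c i).toNat : ℝ) : ℂ)) with hu
  have hn : ∀ n : ℕ, ‖((x n : ℝ) : ℂ)‖ = 1 := by
    intro n
    rw [Complex.norm_real, Real.norm_eq_abs, hx]
  have hu1 : ∀ z, ‖u z‖ ≤ 1 := by
    intro z
    rw [hu]
    show ‖V (p * z.toNat) * (starRingEnd ℂ) (V (q * z.toNat)) *
      ∏ i, (((x ((a i : ℤ) * (p * z.toNat : ℕ) + c i).toNat : ℝ) : ℂ) *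
        ((x ((a i : ℤ) * (q * z.toNat : ℕ) + c i).toNat : ℝ) : ℂ))‖ ≤ 1
    rw [norm_mul, norm_mul, norm_prod]
    have h1 : ∏ i, ‖((x ((a i : ℤ) * (p * z.toNat : ℕ) + c i).toNat : ℝ) : ℂ) *
        ((x ((a i : ℤ) * (q * z.toNat : ℕ) + c i).toNat : ℝ) : ℂ)‖ = 1 := by
      refine Finset.prod_eq_one fun i _ => ?_
      rw [norm_mul, hn, hn, one_mul]
    rw [h1, mul_one, Complex.norm_conj]
    exact mul_le_one₀ (hV _) (norm_nonneg _) (hV _)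
  have h1 := vdc u hu1 (fun e he ε hε => by
    obtain ⟨N₀, h⟩ := H e he ε hε
    refine ⟨N₀, fun N hN => ?_⟩
    have h2 := h N hN
    have h3 : ∑ m ∈ range N, u m * (starRingEnd ℂ) (u ((m : ℤ) + e)) =
        ∑ m ∈ range N, (V (p * m) * (starRingEnd ℂ) (V (q * m)) *
          (starRingEnd ℂ) (V (p * (m + e)) * (starRingEnd ℂ) (V (q * (m + e))))) *
        ∏ y : Fin k × Bool × Bool, ((x (((a y.1 * (if y.2.1 then p else q) : ℕ) : ℤ) * m +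
          (c y.1 + if y.2.2 then ((a y.1 * (if y.2.1 then p else q) : ℕ) : ℤ) * e else 0)).toNat : ℝ) : ℂ) := by
      refine Finset.sum_congr rfl fun m _ => ?_
      have e1 : ((m : ℤ) + e).toNat = m + e := by omega
      have e2 : (m : ℤ).toNat = m := by omega
      rw [hu]
      simp only [e1, e2]
      rw [Fintype.prod_prod_type]
      simp only [Fintype.prod_prod_type, Fintype.prod_bool, if_true, Bool.false_eq_true, if_false]
      rw [map_mul, map_prod]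
      simp only [map_mul, Complex.conj_ofReal, Complex.conj_conj]
      have e3 : ∀ i, ((a i * p : ℕ) : ℤ) * m + (c i + ((a i * p : ℕ) : ℤ) * e) =
          (a i : ℤ) * (p * (m + e) : ℕ) + c i := by intro i; push_cast; ring
      have e4 : ∀ i, ((a i * q : ℕ) : ℤ) * m + (c i + ((a i * q : ℕ) : ℤ) * e) =
          (a i : ℤ) * (q * (m + e) : ℕ) + c i := by intro i; push_cast; ring
      have e5 : ∀ i, ((a i * p : ℕ) : ℤ) * m + (c i + 0) = (a i : ℤ) * (p * m : ℕ) + c i := by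
        intro i; push_cast; ring
      have e6 : ∀ i, ((a i * q : ℕ) : ℤ) * m + (c i + 0) = (a i : ℤ) * (q * m : ℕ) + c i := by
        intro i; push_cast; ring
      simp only [e3, e4, e5, e6]
      have e7 : ∀ (S S' T T' : Fin k → ℂ), ∏ i, S' i * S i * (T' i * T i) = (∏ i, S i * T i) * ∏ i, S' i * T' i := by
        intro S S' T T'
        rw [← Finset.prod_mul_distrib]
        exact Finset.prod_congr rfl fun i _ => by ring
      rw [e7]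
      ring
    rw [h3]
    exact h2) ε hε
  exact h1

open Classical in
/-- the weights on a progression -/
noncomputable def pw (V : ℕ → ℂ) (a h : ℕ) (m : ℕ) : ℂ := if h < m ∧ a ∣ m - h then V ((m - h) / a) else 0

lemma pw_le (V : ℕ → ℂ) (hV : ∀ n, ‖V n‖ ≤ 1) (a h m : ℕ) : ‖pw V a h m‖ ≤ 1 := by
  unfold pw
  split_ifs
  · exact hV _
  · rw [norm_zero]; norm_num

/-- the deterministic part -/
lemma kdet (x : ℕ → ℝ) (hx : ∀ n, |x n| = 1) (hxm : ∀ m n : ℕ, 1 ≤ m → 1 ≤ n → x (m * n) = x m * x n)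
    {k : ℕ} (a b : Fin k → ℕ) (a₀ b₀ : ℕ) (ha : ∀ i, 1 ≤ a i)
    (ha₀ : 1 ≤ a₀) (V : ℕ → ℂ) (hV : ∀ n, ‖V n‖ ≤ 1) (B : ℕ)
    (H : ∀ p q : ℕ, p.Prime → q.Prime → p ≠ q → B < p → B < q → ∀ ε : ℝ, 0 < ε →
      ∃ N₀ : ℕ, ∀ N : ℕ, N₀ ≤ N → ∀ θ : ℝ,
        ‖∑ m ∈ range N, (pw V a₀ b₀ (p * m) * (starRingEnd ℂ) (pw V a₀ b₀ (q * m)) *
        ∏ i, (((x ((a i : ℤ) * (p * m : ℕ) + ((a₀ : ℤ) * b i - a i * b₀)).toNat : ℝ) : ℂ) *
          ((x ((a i : ℤ) * (q * m : ℕ) + ((a₀ : ℤ) * b i - a i * b₀)).toNat : ℝ) : ℂ))) * ee (θ * m)‖ ≤ ε * N)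
    (ε : ℝ) (hε : 0 < ε) :
    ∃ N₀ : ℕ, ∀ N : ℕ, N₀ ≤ N → ∀ f : ℕ → ℂ, KF f → ∀ α : ℝ,
      ‖∑ n ∈ Icc 1 N, f (a₀ * n + b₀) * (V n * ∏ i, ((x (a i * n + b i) : ℝ) : ℂ)) * ee (α * n)‖ ≤ ε * N := by
  classical
  have hn : ∀ n : ℕ, ‖((x n : ℝ) : ℂ)‖ = 1 := by
    intro n
    rw [Complex.norm_real, Real.norm_eq_abs, hx]
  have ha₀' : (0 : ℝ) < a₀ := by exact_mod_cast ha₀
  obtain ⟨P, hP, δ, hδ0, hδ1, N0, hK⟩ := Pool.Agent.W699.TLKat.kat (ε / (2 * a₀)) B (by positivity)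
  have hex : ∀ p q : ℕ, ∃ N₀ : ℕ, p ∈ P → q ∈ P → p ≠ q → ∀ N : ℕ, N₀ ≤ N → ∀ θ : ℝ,
        ‖∑ m ∈ range N, (pw V a₀ b₀ (p * m) * (starRingEnd ℂ) (pw V a₀ b₀ (q * m)) *
        ∏ i, (((x ((a i : ℤ) * (p * m : ℕ) + ((a₀ : ℤ) * b i - a i * b₀)).toNat : ℝ) : ℂ) *
          ((x ((a i : ℤ) * (q * m : ℕ) + ((a₀ : ℤ) * b i - a i * b₀)).toNat : ℝ) : ℂ))) * ee (θ * m)‖ ≤
            δ / 4 * N := by
    intro p q
    by_cases h : p ∈ P ∧ q ∈ P ∧ p ≠ q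
    · obtain ⟨h1, h2, h3⟩ := h
      obtain ⟨N₀, h4⟩ := H p q (hP p h1).1 (hP q h2).1 h3 (hP p h1).2 (hP q h2).2 (δ / 4) (by positivity)
      exact ⟨N₀, fun _ _ _ => h4⟩
    · exact ⟨0, fun h1 h2 h3 => (h ⟨h1, h2, h3⟩).elim⟩
  choose N₁ hN₁ using hex
  obtain ⟨N₂, hN₂⟩ := exists_nat_ge ((((∑ p ∈ P, ∑ q ∈ P, N₁ p q : ℕ) : ℝ) + 4) / δ)
  refine ⟨N0 + N₂ + b₀ + 1, fun N hN f hf α => ?_⟩
  set T := a₀ * N + b₀ with hT
  have hTN : N ≤ T := by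
    rw [hT]
    nlinarith
  set F : ℕ → ℂ := fun m => pw V a₀ b₀ m * (∏ i, ((x ((a i : ℤ) * m + ((a₀ : ℤ) * b i - a i * b₀)).toNat : ℝ) : ℂ)) *
    ee (α / a₀ * m) with hF
  have hF1 : ∀ m, ‖F m‖ ≤ 1 := by
    intro m
    rw [hF]
    show ‖pw V a₀ b₀ m * (∏ i, ((x ((a i : ℤ) * m + ((a₀ : ℤ) * b i - a i * b₀)).toNat : ℝ) : ℂ)) *
      ee (α / a₀ * m)‖ ≤ 1
    rw [norm_mul, norm_mul, norm_prod, c_norm_ee, mul_one]
    rw [Finset.prod_eq_one fun i _ => hn _, mul_one]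
    exact pw_le V hV _ _ _
  have hT2 : (((∑ p ∈ P, ∑ q ∈ P, N₁ p q : ℕ) : ℝ) + 4) ≤ δ * T := by
    have h1 : (((∑ p ∈ P, ∑ q ∈ P, N₁ p q : ℕ) : ℝ) + 4) / δ ≤ T :=
      hN₂.trans (by exact_mod_cast (by omega : N₂ ≤ T))
    rw [div_le_iff₀ hδ0] at h1
    linarith
  have hmain := hK T (by omega) F hF1 (fun p hp q hq hpq M hM1 hM2 => by
    have h1 : N₁ p q ≤ M + 1 := by
      have h2 : N₁ p q ≤ ∑ p ∈ P, ∑ q ∈ P, N₁ p q :=
        (Finset.single_le_sum (f := fun q => N₁ p q) (fun _ _ => Nat.zero_le _) hq).trans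
          (Finset.single_le_sum (f := fun p => ∑ q ∈ P, N₁ p q) (fun _ _ => Nat.zero_le _) hp)
      have h3 : ((N₁ p q : ℕ) : ℝ) ≤ ((∑ p ∈ P, ∑ q ∈ P, N₁ p q : ℕ) : ℝ) := by exact_mod_cast h2
      have h4 : ((N₁ p q : ℕ) : ℝ) ≤ ((M + 1 : ℕ) : ℝ) := by
        push_cast
        push_cast at h3 hT2
        linarith
      exact_mod_cast h4
    have h2 := hN₁ p q hp hq hpq (M + 1) h1 (α / a₀ * ((p : ℝ) - q))
    have h3 : ∀ m : ℕ, F (p * m) * star (F (q * m)) =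
        (pw V a₀ b₀ (p * m) * (starRingEnd ℂ) (pw V a₀ b₀ (q * m)) *
        ∏ i, (((x ((a i : ℤ) * (p * m : ℕ) + ((a₀ : ℤ) * b i - a i * b₀)).toNat : ℝ) : ℂ) *
          ((x ((a i : ℤ) * (q * m : ℕ) + ((a₀ : ℤ) * b i - a i * b₀)).toNat : ℝ) : ℂ))) *
          ee (α / a₀ * ((p : ℝ) - q) * m) := by
      intro m
      have e1 : ee (α / a₀ * ((p * m : ℕ) : ℝ)) * (starRingEnd ℂ) (ee (α / a₀ * ((q * m : ℕ) : ℝ))) =
          ee (α / a₀ * ((p : ℝ) - q) * m) := by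
        rw [Pool.Agent.Y842.PH.conj_ee, ← c_ee_add]
        congr 1
        push_cast
        ring
      rw [← e1, hF]
      show _ * star _ = _
      rw [← starRingEnd_apply]
      simp only [map_mul, map_prod, Complex.conj_ofReal]
      rw [Finset.prod_mul_distrib]
      ring
    have h4 : ∑ m ∈ Ioc 0 M, F (p * m) * star (F (q * m)) =
        ∑ m ∈ range (M + 1), F (p * m) * star (F (q * m)) - F (p * 0) * star (F (q * 0)) := by
      rw [Finset.range_eq_Ico, Finset.sum_eq_sum_Ico_succ_bot (by omega)]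
      rw [add_sub_cancel_left]
      refine Finset.sum_congr ?_ fun _ _ => rfl
      ext m
      simp only [Finset.mem_Ioc, Finset.mem_Ico]
      omega
    rw [h4]
    refine (norm_sub_le _ _).trans ?_
    have h5 : ‖F (p * 0) * star (F (q * 0))‖ ≤ 1 := by
      rw [norm_mul, norm_star]
      exact mul_le_one₀ (hF1 _) (norm_nonneg _) (hF1 _)
    have h6 : ‖∑ m ∈ range (M + 1), F (p * m) * star (F (q * m))‖ ≤ δ / 4 * ((M : ℝ) + 1) := by
      rw [Finset.sum_congr rfl fun m _ => h3 m]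
      refine h2.trans (le_of_eq ?_)
      push_cast
      ring
    have h7 : (M : ℝ) ≤ T := by exact_mod_cast hM2
    have h8 : (0 : ℝ) ≤ ((∑ p ∈ P, ∑ q ∈ P, N₁ p q : ℕ) : ℝ) := by positivity
    nlinarith) f hf
  have hkey : ‖∑ n ∈ Icc 1 N, f (a₀ * n + b₀) * (V n * ∏ i, ((x (a i * n + b i) : ℝ) : ℂ)) * ee (α * n)‖ =
      ‖∑ m ∈ Ioc 0 T, f m * F m‖ := by
    have e1 : ∑ m ∈ Ioc 0 T, f m * F m =
        ∑ n ∈ Icc 1 N, f (a₀ * n + b₀) * F (a₀ * n + b₀) := by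
      symm
      refine Finset.sum_of_injOn (fun n => a₀ * n + b₀) ?_ ?_ ?_ ?_
      · intro n _ m _ h
        have h1 : a₀ * n + b₀ = a₀ * m + b₀ := h
        exact Nat.eq_of_mul_eq_mul_left ha₀ (by omega)
      · intro n hn
        simp only [Finset.coe_Icc, Set.mem_Icc, Finset.coe_Ioc, Set.mem_Ioc] at hn ⊢
        have h2 : a₀ * n ≤ a₀ * N := Nat.mul_le_mul_left _ hn.2
        have h3 : 1 ≤ a₀ * n := Nat.mul_pos ha₀ hn.1
        omega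
      · intro m hm hm2
        rw [hF]
        show f m * (pw V a₀ b₀ m * _ * _) = 0
        have h2 : pw V a₀ b₀ m = 0 := by
          unfold pw
          rw [if_neg]
          rintro ⟨h3, j, h4⟩
          refine hm2 ⟨j, ?_, by show a₀ * j + b₀ = m; omega⟩
          simp only [Finset.coe_Icc, Set.mem_Icc]
          rw [mem_Ioc] at hm
          have h5 : a₀ * j ≤ a₀ * N := by omega
          have h6 : 0 < a₀ * j := by omega
          exact ⟨Nat.pos_of_mul_pos_left h6, Nat.le_of_mul_le_mul_left h5 ha₀⟩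
        rw [h2, zero_mul, zero_mul, mul_zero]
      · intro n _
        rfl
    have e2 : ∀ n ∈ Icc 1 N, f (a₀ * n + b₀) * F (a₀ * n + b₀) =
        (((x a₀ : ℝ) : ℂ) ^ k * ee (α / a₀ * b₀)) *
          (f (a₀ * n + b₀) * (V n * ∏ i, ((x (a i * n + b i) : ℝ) : ℂ)) * ee (α * n)) := by
      intro n hn'
      rw [mem_Icc] at hn'
      rw [hF]
      have g1 : pw V a₀ b₀ (a₀ * n + b₀) = V n := by
        unfold pw
        have h1 : 0 < a₀ * n := Nat.mul_pos ha₀ hn'.1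
        rw [if_pos ⟨by omega, by rw [Nat.add_sub_cancel]; exact dvd_mul_right _ _⟩, Nat.add_sub_cancel,
          Nat.mul_div_cancel_left _ ha₀]
      have g2 : ∀ i, ((a i : ℤ) * ((a₀ * n + b₀ : ℕ) : ℤ) + ((a₀ : ℤ) * b i - a i * b₀)).toNat = a₀ * (a i * n + b i) := by
        intro i
        have h1 : (a i : ℤ) * ((a₀ * n + b₀ : ℕ) : ℤ) + ((a₀ : ℤ) * b i - a i * b₀) =
            ((a₀ * (a i * n + b i) : ℕ) : ℤ) := by
          push_cast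
          ring
        rw [h1, Int.toNat_natCast]
      have g3 : ∀ i, 1 ≤ a i * n + b i := fun i => by
        have := Nat.mul_pos (ha i) hn'.1
        omega
      have g4 : ee (α / a₀ * ((a₀ * n + b₀ : ℕ) : ℝ)) = ee (α / a₀ * b₀) * ee (α * n) := by
        rw [← c_ee_add]
        congr 1
        push_cast
        field_simp
        ring
      show f (a₀ * n + b₀) * (pw V a₀ b₀ (a₀ * n + b₀) * (∏ i, ((x ((a i : ℤ) * ((a₀ * n + b₀ : ℕ) : ℤ) +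
        ((a₀ : ℤ) * b i - a i * b₀)).toNat : ℝ) : ℂ)) * ee (α / a₀ * ((a₀ * n + b₀ : ℕ) : ℝ))) = _
      rw [g1, g4]
      have g5 : ∏ i, ((x ((a i : ℤ) * ((a₀ * n + b₀ : ℕ) : ℤ) + ((a₀ : ℤ) * b i - a i * b₀)).toNat : ℝ) : ℂ) =
          ((x a₀ : ℝ) : ℂ) ^ k * ∏ i, ((x (a i * n + b i) : ℝ) : ℂ) := by
        rw [Finset.prod_congr rfl fun i _ => by rw [g2 i, hxm a₀ _ ha₀ (g3 i), Complex.ofReal_mul],
          Finset.prod_mul_distrib, Finset.prod_const, Finset.card_univ, Fintype.card_fin]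
      rw [g5]
      ring
    rw [e1, Finset.sum_congr rfl e2, ← Finset.mul_sum, norm_mul, norm_mul, norm_pow, hn, one_pow, c_norm_ee,
      one_mul, one_mul]
  rw [hkey]
  refine hmain.trans ?_
  have hb : (b₀ : ℝ) ≤ N := by exact_mod_cast (by omega : b₀ ≤ N)
  have hT3 : (T : ℝ) ≤ 2 * a₀ * N := by
    rw [hT]
    push_cast
    have h1 : (1 : ℝ) ≤ a₀ := by exact_mod_cast ha₀
    nlinarith [show (0 : ℝ) ≤ N from Nat.cast_nonneg N]
  calc ε / (2 * a₀) * T ≤ ε / (2 * a₀) * (2 * a₀ * N) := by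
        exact mul_le_mul_of_nonneg_left hT3 (by positivity)
    _ = ε * N := by field_simp

end Pool.Agent.Q163.ER
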