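import Pool.Agent.Y842.PG.BilR

/-!
Project ER (helper163), part 1: patterns of a bounded function, exponential sums of patterns.
-/

set_option autoImplicit false

open Finset Filter Topology

namespace Pool.Agent.Q163.ER

open Pool.Agent.Y842.PH
open Pool.Agent.Y842.PG (shz)
open Pool.Agent.Helper602.MK (ee)
open Pool.Agent.Helper602.MK.N_J1c (c_ee_add c_ee_int c_norm_ee)

/-- conjugation or not -/
noncomputable def cj (b : Bool) (z : ℂ) : ℂ := if b then (starRingEnd ℂ) z else z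

lemma cj_norm (b : Bool) (z : ℂ) : ‖cj b z‖ = ‖z‖ := by
  unfold cj
  split_ifs
  · exact RCLike.norm_conj z
  · rfl

lemma cj_not (b : Bool) (z : ℂ) : cj (!b) z = (starRingEnd ℂ) (cj b z) := by
  unfold cj
  cases b <;> simp

/-- a pattern of `f`: a product of shifts of `f` and of its conjugate -/
noncomputable def pat (f : ℕ → ℂ) (L : List (ℤ × Bool)) (z : ℤ) : ℂ :=
  (L.map fun x => cj x.2 (f (z + x.1).toNat)).prod

/-- some shift occurs an odd number of times -/
def Odp (L : List (ℤ × Bool)) : Prop := ∃ s : ℤ, Odd ((L.map Prod.fst).count s)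

/-- translation of a pattern -/
def sh (c : ℤ) (L : List (ℤ × Bool)) : List (ℤ × Bool) := L.map fun x => (x.1 + c, x.2)

/-- the pattern times the conjugate of its translate -/
def st (e : ℤ) (L : List (ℤ × Bool)) : List (ℤ × Bool) := L ++ L.map fun x => (x.1 + e, !x.2)

lemma pat_norm (f : ℕ → ℂ) (hf : ∀ n, ‖f n‖ ≤ 1) (L : List (ℤ × Bool)) (z : ℤ) : ‖pat f L z‖ ≤ 1 := by
  induction L with
  | nil => simp [pat]
  | cons x L ih =>
    unfold pat at ih ⊢
    rw [List.map_cons, List.prod_cons, norm_mul, cj_norm]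
    exact mul_le_one₀ (hf _) (norm_nonneg _) ih

lemma pat_sh (f : ℕ → ℂ) (L : List (ℤ × Bool)) (c z : ℤ) : pat f (sh c L) z = pat f L (z + c) := by
  unfold pat sh
  rw [List.map_map]
  congr 1
  apply List.map_congr_left
  intro x _
  simp only [Function.comp]
  congr 3
  ring

lemma conj_pat (f : ℕ → ℂ) (L : List (ℤ × Bool)) (z : ℤ) :
    (starRingEnd ℂ) (pat f L z) = (L.map fun x => cj (!x.2) (f (z + x.1).toNat)).prod := by
  induction L with
  | nil => simp [pat]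
  | cons x L ih =>
    unfold pat at ih ⊢
    rw [List.map_cons, List.prod_cons, map_mul, ih, List.map_cons, List.prod_cons, cj_not]

lemma pat_st (f : ℕ → ℂ) (L : List (ℤ × Bool)) (e z : ℤ) :
    pat f (st e L) z = pat f L z * (starRingEnd ℂ) (pat f L (z + e)) := by
  rw [conj_pat]
  unfold pat st
  rw [List.map_append, List.prod_append, List.map_map]
  congr 2
  apply List.map_congr_left
  intro x _
  simp only [Function.comp]
  congr 3
  ring

lemma map_st (e : ℤ) (L : List (ℤ × Bool)) :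
    (st e L).map Prod.fst = L.map Prod.fst ++ (L.map Prod.fst).map (fun s => s + e) := by
  unfold st
  rw [List.map_append, List.map_map, List.map_map]
  rfl

lemma count_tr (l : List ℤ) (e s : ℤ) : (l.map (fun s => s + e)).count (s + e) = l.count s := by
  rw [List.count_map_of_injective l (fun s => s + e) (fun a b h => by
    simpa using h)]

lemma odp_st (L : List (ℤ × Bool)) (hL : Odp L) (e : ℤ) (he : e ≠ 0) : Odp (st e L) := by
  classical
  set l := L.map Prod.fst with hl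
  have hne : (l.toFinset.filter (fun s => Odd (l.count s))).Nonempty := by
    obtain ⟨s, hs⟩ := hL
    refine ⟨s, mem_filter.2 ⟨?_, hs⟩⟩
    rw [List.mem_toFinset]
    by_contra h
    rw [List.count_eq_zero_of_not_mem h] at hs
    exact (by decide : ¬ Odd 0) hs
  have hout : ∀ s, s ∉ (l.toFinset.filter (fun s => Odd (l.count s))) → ¬ Odd (l.count s) := by
    intro s hs ho
    apply hs
    refine mem_filter.2 ⟨?_, ho⟩
    rw [List.mem_toFinset]
    by_contra h
    rw [List.count_eq_zero_of_not_mem h] at ho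
    exact (by decide : ¬ Odd 0) ho
  rcases lt_or_gt_of_ne he with h | h
  · set s := (l.toFinset.filter (fun s => Odd (l.count s))).min' hne with hs
    have h1 := min'_mem _ hne
    rw [← hs] at h1
    have h2 : ¬ Odd (l.count (s + e)) := by
      apply hout
      intro h3
      have := min'_le _ _ h3
      rw [← hs] at this
      omega
    refine ⟨s + e, ?_⟩
    rw [map_st, List.count_append, count_tr]
    exact Even.add_odd (Nat.not_odd_iff_even.1 h2) (mem_filter.1 h1).2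
  · set s := (l.toFinset.filter (fun s => Odd (l.count s))).max' hne with hs
    have h1 := max'_mem _ hne
    rw [← hs] at h1
    have h2 : ¬ Odd (l.count (s + e)) := by
      apply hout
      intro h3
      have := le_max' _ _ h3
      rw [← hs] at this
      omega
    refine ⟨s + e, ?_⟩
    rw [map_st, List.count_append, count_tr]
    exact Even.add_odd (Nat.not_odd_iff_even.1 h2) (mem_filter.1 h1).2

lemma odp_sh (L : List (ℤ × Bool)) (hL : Odp L) (c : ℤ) : Odp (sh c L) := by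
  obtain ⟨s, hs⟩ := hL
  refine ⟨s + c, ?_⟩
  have e1 : (sh c L).map Prod.fst = (L.map Prod.fst).map (fun s => s + c) := by
    unfold sh
    rw [List.map_map, List.map_map]
    rfl
  rw [e1, count_tr]
  exact hs

/-- all patterns with an odd shift have mean value zero -/
def EQ (f : ℕ → ℂ) : Prop := ∀ L : List (ℤ × Bool), (∀ x ∈ L, 0 ≤ x.1) → Odp L →
  Tendsto (fun N : ℕ => (∑ m ∈ range N, pat f L m) / (N : ℂ)) atTop (𝓝 0)

/-- integer shifts -/
lemma eqz (f : ℕ → ℂ) (hb : ∀ n, ‖f n‖ ≤ 1) (hf : EQ f) (L : List (ℤ × Bool)) (hL : Odp L) (ε : ℝ) (hε : 0 < ε) :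
    ∃ N₀ : ℕ, ∀ N : ℕ, N₀ ≤ N → ‖∑ m ∈ range N, pat f L m‖ ≤ ε * N := by
  obtain ⟨c, hc⟩ : ∃ c : ℕ, ∀ x ∈ L, 0 ≤ x.1 + c := by
    refine ⟨(L.map fun x => x.1.natAbs).sum, fun x hx => ?_⟩
    have h1 : x.1.natAbs ≤ (L.map fun x => x.1.natAbs).sum :=
      List.single_le_sum (fun _ _ => Nat.zero_le _) _ (List.mem_map_of_mem hx)
    omega
  have h1 := hf (sh c L) (by
    intro x hx
    unfold sh at hx
    rw [List.mem_map] at hx
    obtain ⟨y, hy, rfl⟩ := hx
    exact hc y hy) (odp_sh L hL c)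
  have h2 := (tendsto_zero_iff_norm_tendsto_zero.1 h1).eventually_le_const (show (0 : ℝ) < ε / 2 by positivity)
  obtain ⟨N₁, hN₁⟩ := eventually_atTop.1 h2
  obtain ⟨N₂, hN₂⟩ := exists_nat_ge (4 * c / ε)
  refine ⟨N₁ + N₂ + 1, fun N hN => ?_⟩
  have h3 := hN₁ N (by omega)
  have hN0 : (0 : ℝ) < N := by exact_mod_cast (by omega : 0 < N)
  rw [norm_div, Complex.norm_natCast, div_le_iff₀ hN0] at h3
  have h4 := shz N c (fun z => pat f L z) 1 (fun z => pat_norm f hb L z)
  have h5 : ∑ m ∈ range N, pat f (sh c L) m = ∑ m ∈ range N, pat f L ((m : ℤ) + (c : ℤ)) :=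
    sum_congr rfl fun m _ => pat_sh f L c m
  rw [h5] at h3
  have h6 := norm_sub_norm_le (∑ m ∈ range N, pat f L m) (∑ m ∈ range N, pat f L ((m : ℤ) + (c : ℤ)))
  rw [norm_sub_rev] at h6
  have h7 : 2 * |((c : ℤ) : ℝ)| * 1 ≤ ε / 2 * N := by
    rw [Int.cast_natCast, Nat.abs_cast, mul_one]
    have h8 : 4 * (c : ℝ) / ε ≤ N := hN₂.trans (by exact_mod_cast (by omega : N₂ ≤ N))
    rw [div_le_iff₀ hε] at h8
    linarith
  linarith

/-- **exponential sums** of patterns, uniformly in the frequency -/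
lemma phase (f : ℕ → ℂ) (hb : ∀ n, ‖f n‖ ≤ 1) (hf : EQ f) (L : List (ℤ × Bool)) (hL : Odp L) (ε : ℝ) (hε : 0 < ε) :
    ∃ N₀ : ℕ, ∀ N : ℕ, N₀ ≤ N → ∀ θ : ℝ, ‖∑ m ∈ range N, pat f L m * ee (θ * m)‖ ≤ ε * N := by
  classical
  obtain ⟨H, hH⟩ := exists_nat_ge (16 / ε ^ 2)
  have hH0 : (0 : ℝ) < H := lt_of_lt_of_le (by positivity) hH
  have hex : ∀ e : ℤ, ∃ N₀ : ℕ, e ≠ 0 → ∀ N : ℕ, N₀ ≤ N → ‖∑ m ∈ range N, pat f (st e L) m‖ ≤ ε ^ 2 / 16 * N := by
    intro e
    by_cases he : e = 0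
    · exact ⟨0, fun h => (h he).elim⟩
    · obtain ⟨N₀, h⟩ := eqz f hb hf (st e L) (odp_st L hL e he) (ε ^ 2 / 16) (by positivity)
      exact ⟨N₀, fun _ => h⟩
  choose N₁ hN₁ using hex
  obtain ⟨N₂, hN₂⟩ := exists_nat_ge (32 * H / ε ^ 2 + 4 * H / ε)
  refine ⟨∑ e ∈ Icc (-(H : ℤ)) H, N₁ e + N₂ + 1, fun N hN θ => ?_⟩
  have hN0 : (0 : ℝ) < N := by exact_mod_cast (by omega : 0 < N)
  have hN2 : 32 * H / ε ^ 2 + 4 * H / ε ≤ (N : ℝ) := hN₂.trans (by exact_mod_cast (by omega : N₂ ≤ N))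
  have hN3 : 2 * (H : ℝ) ≤ ε ^ 2 / 16 * N := by
    have h1 : 32 * H / ε ^ 2 ≤ (N : ℝ) := by
      have : 0 ≤ 4 * H / ε := by positivity
      linarith
    rw [div_le_iff₀ (by positivity)] at h1
    linarith
  have hN4 : 2 * (H : ℝ) ≤ ε / 2 * N := by
    have h1 : 4 * H / ε ≤ (N : ℝ) := by
      have : 0 ≤ 32 * H / ε ^ 2 := by positivity
      linarith
    rw [div_le_iff₀ hε] at h1
    linarith
  set S := ‖∑ m ∈ range N, pat f L m * ee (θ * m)‖ with hS
  set b : ℕ → ℕ → ℂ := fun h m => pat f L ((m : ℤ) + h) * ee (θ * ((m : ℝ) + h)) with hbd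
  have h1 : ∀ h ∈ range H, S - 2 * H ≤ ‖∑ m ∈ range N, 1 * b h m‖ := by
    intro h hh
    rw [mem_range] at hh
    have h2 := shz N h (fun z => pat f L z * ee (θ * (z : ℝ))) 1 (fun z => by
      rw [norm_mul, c_norm_ee, mul_one]
      exact pat_norm f hb L z)
    have h3 : ∑ m ∈ range N, 1 * b h m = ∑ m ∈ range N, pat f L ((m : ℤ) + (h : ℤ)) *
        ee (θ * (((m : ℤ) + (h : ℤ) : ℤ) : ℝ)) := by
      refine sum_congr rfl fun m _ => ?_
      rw [one_mul, hbd]
      show pat f L ((m : ℤ) + h) * ee (θ * ((m : ℝ) + h)) = _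
      push_cast
      rfl
    have h4 : ∑ m ∈ range N, pat f L m * ee (θ * m) = ∑ m ∈ range N, pat f L (m : ℤ) * ee (θ * (((m : ℤ)) : ℝ)) := by
      refine sum_congr rfl fun m _ => ?_
      push_cast
      rfl
    rw [h3, hS, h4]
    have h5 := norm_sub_norm_le (∑ m ∈ range N, pat f L (m : ℤ) * ee (θ * (((m : ℤ)) : ℝ)))
      (∑ m ∈ range N, pat f L ((m : ℤ) + (h : ℤ)) * ee (θ * (((m : ℤ) + (h : ℤ) : ℤ) : ℝ)))
    rw [norm_sub_rev] at h5
    have h6 : 2 * |((h : ℤ) : ℝ)| * 1 ≤ 2 * H := by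
      rw [Int.cast_natCast, Nat.abs_cast, mul_one]
      have : (h : ℝ) ≤ H := by exact_mod_cast hh.le
      linarith
    linarith
  have h2 := cs N (range H) (fun _ => 1) (fun _ _ => zero_le_one) (fun _ => 1) (fun _ => by simp) b
  simp only [one_mul] at h2 h1
  have h3 : ∀ h ∈ range H, ∀ h' ∈ range H, ‖∑ m ∈ range N, b h m * (starRingEnd ℂ) (b h' m)‖ ≤
      (if h = h' then (N : ℝ) else 0) + ε ^ 2 / 8 * N := by
    intro h hh h' hh'
    rw [mem_range] at hh hh'
    by_cases heq : h = h'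
    · rw [if_pos heq]
      have e1 : ‖∑ m ∈ range N, b h m * (starRingEnd ℂ) (b h' m)‖ ≤ N := by
        refine (norm_sum_le _ _).trans ?_
        refine (sum_le_sum (g := fun _ => (1 : ℝ)) fun m _ => ?_).trans (by simp)
        rw [norm_mul, RCLike.norm_conj]
        have e2 : ∀ h m, ‖b h m‖ ≤ 1 := by
          intro h m
          rw [hbd]
          show ‖pat f L ((m : ℤ) + h) * ee (θ * ((m : ℝ) + h))‖ ≤ 1
          rw [norm_mul, c_norm_ee, mul_one]
          exact pat_norm f hb L _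
        exact mul_le_one₀ (e2 _ _) (norm_nonneg _) (e2 _ _)
      have : 0 ≤ ε ^ 2 / 8 * (N : ℝ) := by positivity
      linarith
    · rw [if_neg heq, zero_add]
      have e0 : (h' : ℤ) - h ≠ 0 := by omega
      have e1 : ∑ m ∈ range N, b h m * (starRingEnd ℂ) (b h' m) =
          ee (θ * ((h : ℝ) - h')) * ∑ m ∈ range N, pat f (st ((h' : ℤ) - h) L) ((m : ℤ) + (h : ℤ)) := by
        rw [mul_sum]
        refine sum_congr rfl fun m _ => ?_
        rw [pat_st, hbd]
        show pat f L ((m : ℤ) + h) * ee (θ * ((m : ℝ) + h)) *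
          (starRingEnd ℂ) (pat f L ((m : ℤ) + h') * ee (θ * ((m : ℝ) + h'))) = _
        rw [map_mul, conj_ee]
        have e2 : ee (θ * ((h : ℝ) - h')) = ee (θ * ((m : ℝ) + h)) * ee (-(θ * ((m : ℝ) + h'))) := by
          rw [← c_ee_add]
          congr 1
          ring
        have e3 : (m : ℤ) + h + ((h' : ℤ) - h) = m + h' := by ring
        rw [e2, e3]
        ring
      rw [e1, norm_mul, c_norm_ee, one_mul]
      have e2 := shz N h (fun z => pat f (st ((h' : ℤ) - h) L) z) 1 (fun z => pat_norm f hb _ z)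
      have e3 := norm_sub_norm_le (∑ m ∈ range N, pat f (st ((h' : ℤ) - h) L) ((m : ℤ) + (h : ℤ)))
        (∑ m ∈ range N, pat f (st ((h' : ℤ) - h) L) (m : ℤ))
      have e4 : 2 * |((h : ℤ) : ℝ)| * 1 ≤ 2 * H := by
        rw [Int.cast_natCast, Nat.abs_cast, mul_one]
        have : (h : ℝ) ≤ H := by exact_mod_cast hh.le
        linarith
      have e5 := hN₁ ((h' : ℤ) - h) e0 N (by
        have : N₁ ((h' : ℤ) - h) ≤ ∑ e ∈ Icc (-(H : ℤ)) H, N₁ e :=
          single_le_sum (f := fun e => N₁ e) (fun _ _ => Nat.zero_le _) (mem_Icc.2 ⟨by omega, by omega⟩)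
        omega)
      linarith
  have h4 : ∑ h ∈ range H, ∑ h' ∈ range H, ‖∑ m ∈ range N, b h m * (starRingEnd ℂ) (b h' m)‖ ≤
      H * N + H * (H * (ε ^ 2 / 8 * N)) := by
    refine (sum_le_sum fun h hh => sum_le_sum fun h' hh' => h3 h hh h' hh').trans ?_
    have e1 : ∀ h ∈ range H, ∑ h' ∈ range H, ((if h = h' then (N : ℝ) else 0) + ε ^ 2 / 8 * N) =
        N + H * (ε ^ 2 / 8 * N) := by
      intro h hh
      rw [sum_add_distrib, sum_ite_eq, if_pos hh, sum_const, card_range, nsmul_eq_mul]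
    rw [sum_congr rfl e1, sum_const, card_range, nsmul_eq_mul]
    apply le_of_eq
    ring
  by_cases hneg : S - 2 * H ≤ 0
  · have h0 : (0 : ℝ) ≤ ε / 2 * N := by positivity
    linarith
  push Not at hneg
  have h5 : (H : ℝ) * (S - 2 * H) ≤ ∑ h ∈ range H, ‖∑ m ∈ range N, b h m‖ := by
    have e1 := sum_le_sum h1
    rw [sum_const, card_range, nsmul_eq_mul] at e1
    exact e1
  have h6 : ((H : ℝ) * (S - 2 * H)) ^ 2 ≤ N * (H * N + H * (H * (ε ^ 2 / 8 * N))) := by
    refine (pow_le_pow_left₀ (by positivity) h5 2).trans (h2.trans ?_)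
    exact mul_le_mul_of_nonneg_left h4 (Nat.cast_nonneg N)
  have h7 : (H : ℝ) * N ≤ H * (H * (ε ^ 2 / 16 * N)) := by
    apply mul_le_mul_of_nonneg_left _ hH0.le
    rw [div_le_iff₀ (by positivity)] at hH
    have : (16 : ℝ) * N ≤ (H * ε ^ 2) * N := mul_le_mul_of_nonneg_right hH hN0.le
    linarith
  have h8 : ((H : ℝ) * (S - 2 * H)) ^ 2 ≤ (H * (ε / 2 * N)) ^ 2 := by
    refine h6.trans ?_
    have e1 : (N : ℝ) * (H * N + H * (H * (ε ^ 2 / 8 * N))) ≤
        N * (H * (H * (ε ^ 2 / 16 * N)) + H * (H * (ε ^ 2 / 8 * N))) :=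
      mul_le_mul_of_nonneg_left (by linarith) hN0.le
    refine e1.trans ?_
    have e2 : (H * (ε / 2 * N)) ^ 2 - N * (H * (H * (ε ^ 2 / 16 * N)) + H * (H * (ε ^ 2 / 8 * N))) =
        (H : ℝ) ^ 2 * N ^ 2 * ε ^ 2 / 16 := by ring
    have e3 : (0 : ℝ) ≤ (H : ℝ) ^ 2 * N ^ 2 * ε ^ 2 / 16 := by positivity
    linarith
  have h9 : (H : ℝ) * (S - 2 * H) ≤ H * (ε / 2 * N) := (abs_le_of_sq_le_sq' h8 (by positivity)).2
  have h10 := le_of_mul_le_mul_left h9 hH0
  linarith

end Pool.Agent.Q163.ER
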