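import Pool.Agent.Q163.ER.Pat

/-!
Project ER (helper163), part 6: the inequality of van der Corput, sequences on the integers.
-/

set_option autoImplicit false

open Finset Filter Topology

namespace Pool.Agent.Q163.ER

open Pool.Agent.Y842.PH
open Pool.Agent.Y842.PG (shz)
open Pool.Agent.Helper602.MK (ee)
open Pool.Agent.Helper602.MK.N_J1c (c_ee_add c_ee_int c_norm_ee)

/-- correlations of a sequence control its exponential sums, uniformly in the frequency -/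
lemma vdc (u : ℤ → ℂ) (hu : ∀ z, ‖u z‖ ≤ 1)
    (hc : ∀ e : ℕ, 1 ≤ e → ∀ ε : ℝ, 0 < ε → ∃ N₀ : ℕ, ∀ N : ℕ, N₀ ≤ N →
      ‖∑ m ∈ range N, u m * (starRingEnd ℂ) (u ((m : ℤ) + e))‖ ≤ ε * N) (ε : ℝ) (hε : 0 < ε) :
    ∃ N₀ : ℕ, ∀ N : ℕ, N₀ ≤ N → ∀ θ : ℝ, ‖∑ m ∈ range N, u m * ee (θ * m)‖ ≤ ε * N := by
  classical
  obtain ⟨H, hH⟩ := exists_nat_ge (16 / ε ^ 2)
  have hH0 : (0 : ℝ) < H := lt_of_lt_of_le (by positivity) hH
  have hex : ∀ e : ℕ, ∃ N₀ : ℕ, 1 ≤ e → ∀ N : ℕ, N₀ ≤ N →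
      ‖∑ m ∈ range N, u m * (starRingEnd ℂ) (u ((m : ℤ) + e))‖ ≤ ε ^ 2 / 16 * N := by
    intro e
    by_cases he : 1 ≤ e
    · obtain ⟨N₀, h⟩ := hc e he (ε ^ 2 / 16) (by positivity)
      exact ⟨N₀, fun _ => h⟩
    · exact ⟨0, fun h => (he h).elim⟩
  choose N₁ hN₁ using hex
  obtain ⟨N₂, hN₂⟩ := exists_nat_ge (32 * H / ε ^ 2 + 4 * H / ε)
  refine ⟨∑ e ∈ range (H + 1), N₁ e + N₂ + 1, fun N hN θ => ?_⟩
  have hN0 : (0 : ℝ) < N := by exact_mod_cast (by omega : 0 < N)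
  have hN2 : 32 * H / ε ^ 2 + 4 * H / ε ≤ (N : ℝ) := hN₂.trans (by exact_mod_cast (by omega : N₂ ≤ N))
  have hN3 : 2 * (H : ℝ) ≤ ε ^ 2 / 16 * N := by
    have h1 : 32 * H / ε ^ 2 ≤ (N : ℝ) := by
      have : 0 ≤ 4 * H / ε := by positivity
      linarith
    rw [div_le_iff₀ (by positivity)] at h1
    linarith
  have hN4 : 2 * (H : ℝ) ≤ ε / 2 * N := by
    have h1 : 4 * H / ε ≤ (N : ℝ) := by
      have : 0 ≤ 32 * H / ε ^ 2 := by positivity
      linarith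
    rw [div_le_iff₀ hε] at h1
    linarith
  set S := ‖∑ m ∈ range N, u m * ee (θ * m)‖ with hS
  set b : ℕ → ℕ → ℂ := fun h m => u ((m : ℤ) + h) * ee (θ * ((m : ℝ) + h)) with hbd
  have h1 : ∀ h ∈ range H, S - 2 * H ≤ ‖∑ m ∈ range N, 1 * b h m‖ := by
    intro h hh
    rw [mem_range] at hh
    have h2 := shz N h (fun z => u z * ee (θ * (z : ℝ))) 1 (fun z => by
      rw [norm_mul, c_norm_ee, mul_one]
      exact hu z)
    have h3 : ∑ m ∈ range N, 1 * b h m = ∑ m ∈ range N, u ((m : ℤ) + (h : ℤ)) *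
        ee (θ * (((m : ℤ) + (h : ℤ) : ℤ) : ℝ)) := by
      refine sum_congr rfl fun m _ => ?_
      rw [one_mul, hbd]
      show u ((m : ℤ) + h) * ee (θ * ((m : ℝ) + h)) = _
      push_cast
      rfl
    have h4 : ∑ m ∈ range N, u m * ee (θ * m) = ∑ m ∈ range N, u (m : ℤ) * ee (θ * (((m : ℤ)) : ℝ)) := by
      refine sum_congr rfl fun m _ => ?_
      push_cast
      rfl
    rw [h3, hS, h4]
    have h5 := norm_sub_norm_le (∑ m ∈ range N, u (m : ℤ) * ee (θ * (((m : ℤ)) : ℝ)))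
      (∑ m ∈ range N, u ((m : ℤ) + (h : ℤ)) * ee (θ * (((m : ℤ) + (h : ℤ) : ℤ) : ℝ)))
    rw [norm_sub_rev] at h5
    have h6 : 2 * |((h : ℤ) : ℝ)| * 1 ≤ 2 * H := by
      rw [Int.cast_natCast, Nat.abs_cast, mul_one]
      have : (h : ℝ) ≤ H := by exact_mod_cast hh.le
      linarith
    linarith
  have h2 := cs N (range H) (fun _ => 1) (fun _ _ => zero_le_one) (fun _ => 1) (fun _ => by simp) b
  simp only [one_mul] at h2 h1
  have hlt : ∀ h h' : ℕ, h < h' → h' < H → ‖∑ m ∈ range N, b h m * (starRingEnd ℂ) (b h' m)‖ ≤ ε ^ 2 / 8 * N := by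
    intro h h' hlt hH'
    obtain ⟨e, rfl⟩ := Nat.exists_eq_add_of_lt hlt
    have e1 : ∑ m ∈ range N, b h m * (starRingEnd ℂ) (b (h + e + 1) m) =
        ee (-(θ * ((e : ℝ) + 1))) * ∑ m ∈ range N, (fun z : ℤ => u z * (starRingEnd ℂ) (u (z + (e + 1 : ℕ))))
          ((m : ℤ) + (h : ℤ)) := by
      rw [mul_sum]
      refine sum_congr rfl fun m _ => ?_
      rw [hbd]
      show u ((m : ℤ) + h) * ee (θ * ((m : ℝ) + h)) *
        (starRingEnd ℂ) (u ((m : ℤ) + ((h + e + 1 : ℕ) : ℤ)) * ee (θ * ((m : ℝ) + ((h + e + 1 : ℕ) : ℝ)))) =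
        ee (-(θ * ((e : ℝ) + 1))) * (u ((m : ℤ) + h) * (starRingEnd ℂ) (u ((m : ℤ) + h + (e + 1 : ℕ))))
      rw [map_mul, conj_ee]
      have e2 : ee (-(θ * ((e : ℝ) + 1))) = ee (θ * ((m : ℝ) + h)) * ee (-(θ * ((m : ℝ) + ((h + e + 1 : ℕ) : ℝ)))) := by
        rw [← c_ee_add]
        congr 1
        push_cast
        ring
      have e3 : (m : ℤ) + ((h + e + 1 : ℕ) : ℤ) = (m : ℤ) + h + (e + 1 : ℕ) := by
        push_cast
        ring
      rw [e2, e3]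
      ring
    rw [e1, norm_mul, c_norm_ee, one_mul]
    have hu2 : ∀ z : ℤ, ‖(fun z : ℤ => u z * (starRingEnd ℂ) (u (z + (e + 1 : ℕ)))) z‖ ≤ 1 := by
      intro z
      show ‖u z * (starRingEnd ℂ) (u (z + (e + 1 : ℕ)))‖ ≤ 1
      rw [norm_mul, RCLike.norm_conj]
      exact mul_le_one₀ (hu _) (norm_nonneg _) (hu _)
    have e2 := shz N h (fun z : ℤ => u z * (starRingEnd ℂ) (u (z + (e + 1 : ℕ)))) 1 hu2
    have e3 := norm_sub_norm_le (∑ m ∈ range N, (fun z : ℤ => u z * (starRingEnd ℂ) (u (z + (e + 1 : ℕ))))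
      ((m : ℤ) + (h : ℤ))) (∑ m ∈ range N, (fun z : ℤ => u z * (starRingEnd ℂ) (u (z + (e + 1 : ℕ)))) (m : ℤ))
    have e4 : 2 * |((h : ℤ) : ℝ)| * 1 ≤ 2 * H := by
      rw [Int.cast_natCast, Nat.abs_cast, mul_one]
      have : (h : ℝ) ≤ H := by exact_mod_cast (by omega : h ≤ H)
      linarith
    have e5 := hN₁ (e + 1) (by omega) N (by
      have : N₁ (e + 1) ≤ ∑ e ∈ range (H + 1), N₁ e :=
        single_le_sum (f := fun e => N₁ e) (fun _ _ => Nat.zero_le _) (mem_range.2 (by omega))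
      omega)
    have e6 : ‖∑ m ∈ range N, (fun z : ℤ => u z * (starRingEnd ℂ) (u (z + (e + 1 : ℕ)))) (m : ℤ)‖ ≤
        ε ^ 2 / 16 * N := e5
    linarith
  have h3 : ∀ h ∈ range H, ∀ h' ∈ range H, ‖∑ m ∈ range N, b h m * (starRingEnd ℂ) (b h' m)‖ ≤
      (if h = h' then (N : ℝ) else 0) + ε ^ 2 / 8 * N := by
    intro h hh h' hh'
    rw [mem_range] at hh hh'
    rcases lt_trichotomy h h' with hlt' | heq | hgt
    · rw [if_neg (by omega), zero_add]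
      exact hlt h h' hlt' hh'
    · rw [if_pos heq]
      have e1 : ‖∑ m ∈ range N, b h m * (starRingEnd ℂ) (b h' m)‖ ≤ N := by
        refine (norm_sum_le _ _).trans ?_
        refine (sum_le_sum (g := fun _ => (1 : ℝ)) fun m _ => ?_).trans (by simp)
        rw [norm_mul, RCLike.norm_conj]
        have e2 : ∀ h m, ‖b h m‖ ≤ 1 := by
          intro h m
          rw [hbd]
          show ‖u ((m : ℤ) + h) * ee (θ * ((m : ℝ) + h))‖ ≤ 1
          rw [norm_mul, c_norm_ee, mul_one]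
          exact hu _
        exact mul_le_one₀ (e2 _ _) (norm_nonneg _) (e2 _ _)
      have : 0 ≤ ε ^ 2 / 8 * (N : ℝ) := by positivity
      linarith
    · rw [if_neg (by omega), zero_add]
      have e1 : ‖∑ m ∈ range N, b h m * (starRingEnd ℂ) (b h' m)‖ =
          ‖∑ m ∈ range N, b h' m * (starRingEnd ℂ) (b h m)‖ := by
        rw [← RCLike.norm_conj, map_sum]
        congr 1
        refine sum_congr rfl fun m _ => ?_
        simp only [map_mul, Complex.conj_conj]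
        ring
      rw [e1]
      exact hlt h' h hgt hh
  have h4 : ∑ h ∈ range H, ∑ h' ∈ range H, ‖∑ m ∈ range N, b h m * (starRingEnd ℂ) (b h' m)‖ ≤
      H * N + H * (H * (ε ^ 2 / 8 * N)) := by
    refine (sum_le_sum fun h hh => sum_le_sum fun h' hh' => h3 h hh h' hh').trans ?_
    have e1 : ∀ h ∈ range H, ∑ h' ∈ range H, ((if h = h' then (N : ℝ) else 0) + ε ^ 2 / 8 * N) =
        N + H * (ε ^ 2 / 8 * N) := by
      intro h hh
      rw [sum_add_distrib, sum_ite_eq, if_pos hh, sum_const, card_range, nsmul_eq_mul]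
    rw [sum_congr rfl e1, sum_const, card_range, nsmul_eq_mul]
    apply le_of_eq
    ring
  by_cases hneg : S - 2 * H ≤ 0
  · have h0 : (0 : ℝ) ≤ ε / 2 * N := by positivity
    linarith
  push Not at hneg
  have h5 : (H : ℝ) * (S - 2 * H) ≤ ∑ h ∈ range H, ‖∑ m ∈ range N, b h m‖ := by
    have e1 := sum_le_sum h1
    rw [sum_const, card_range, nsmul_eq_mul] at e1
    exact e1
  have h6 : ((H : ℝ) * (S - 2 * H)) ^ 2 ≤ N * (H * N + H * (H * (ε ^ 2 / 8 * N))) := by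
    refine (pow_le_pow_left₀ (by positivity) h5 2).trans (h2.trans ?_)
    exact mul_le_mul_of_nonneg_left h4 (Nat.cast_nonneg N)
  have h7 : (H : ℝ) * N ≤ H * (H * (ε ^ 2 / 16 * N)) := by
    apply mul_le_mul_of_nonneg_left _ hH0.le
    rw [div_le_iff₀ (by positivity)] at hH
    have : (16 : ℝ) * N ≤ (H * ε ^ 2) * N := mul_le_mul_of_nonneg_right hH hN0.le
    linarith
  have h8 : ((H : ℝ) * (S - 2 * H)) ^ 2 ≤ (H * (ε / 2 * N)) ^ 2 := by
    refine h6.trans ?_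
    have e1 : (N : ℝ) * (H * N + H * (H * (ε ^ 2 / 8 * N))) ≤
        N * (H * (H * (ε ^ 2 / 16 * N)) + H * (H * (ε ^ 2 / 8 * N))) :=
      mul_le_mul_of_nonneg_left (by linarith) hN0.le
    refine e1.trans ?_
    have e2 : (H * (ε / 2 * N)) ^ 2 - N * (H * (H * (ε ^ 2 / 16 * N)) + H * (H * (ε ^ 2 / 8 * N))) =
        (H : ℝ) ^ 2 * N ^ 2 * ε ^ 2 / 16 := by ring
    have e3 : (0 : ℝ) ≤ (H : ℝ) ^ 2 * N ^ 2 * ε ^ 2 / 16 := by positivity
    linarith
  have h9 : (H : ℝ) * (S - 2 * H) ≤ H * (ε / 2 * N) := (abs_le_of_sq_le_sq' h8 (by positivity)).2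
  have h10 := le_of_mul_le_mul_left h9 hH0
  linarith

end Pool.Agent.Q163.ER
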